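import Pool.Agent.H27.Leg.Poly

/-!
# Legendre polynomials: bounds

`|P n x| ≤ 1` for `|x| ≤ 1`, and `|P n x| ≤ q ^ n` for `|x| ≤ (q + 1 / q) / 2`, `q ≥ 1`; the same with polynomial factors for the first
two derivatives.
-/

open Polynomial

namespace Pool.Agent.H27.Leg

private theorem aux_deriv (n : ℕ) (hn : n ≠ 0) (x : ℝ) :
    (derivative (P n ^ 2 + C (1 / ((n : ℝ) * ((n : ℝ) + 1))) * ((1 - X ^ 2) * derivative (P n) ^ 2))).eval x =
      2 * x * (derivative (P n)).eval x ^ 2 / ((n : ℝ) * ((n : ℝ) + 1)) := by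
  have h := ode_eval n x
  have hn0 : (0 : ℝ) < n := Nat.cast_pos.2 (Nat.pos_of_ne_zero hn)
  have h0 : (n : ℝ) * ((n : ℝ) + 1) ≠ 0 := by positivity
  simp only [derivative_add, derivative_mul, derivative_sub, derivative_one, derivative_C,
    derivative_pow, eval_mul, eval_sub, eval_add, eval_one, eval_X, eval_pow, eval_C, zero_mul, zero_add]
  norm_num
  field_simp
  linear_combination ((derivative (P n)).eval x) * h

private theorem le_one_aux {n : ℕ} (hn : n ≠ 0) {x : ℝ} (h0 : 0 ≤ x) (h1 : x ≤ 1) :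
    (P n).eval x ^ 2 + (1 - x ^ 2) * (derivative (P n)).eval x ^ 2 / ((n : ℝ) * ((n : ℝ) + 1)) ≤ 1 := by
  have hn0 : (0 : ℝ) < n := Nat.cast_pos.2 (Nat.pos_of_ne_zero hn)
  set f := P n ^ 2 + C (1 / ((n : ℝ) * ((n : ℝ) + 1))) * ((1 - X ^ 2) * derivative (P n) ^ 2) with hf
  have hmono : MonotoneOn (fun y => f.eval y) (Set.Icc 0 1) := by
    refine monotoneOn_of_deriv_nonneg (convex_Icc 0 1) f.continuous.continuousOn f.differentiable.differentiableOn ?_
    intro y hy
    rw [interior_Icc] at hy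
    rw [Polynomial.deriv, hf, aux_deriv n hn y]
    have := hy.1.le
    positivity
  have h2 := hmono ⟨h0, h1⟩ ⟨zero_le_one, le_rfl⟩ h1
  have h3 : f.eval 1 = 1 := by
    rw [hf]
    simp [eval_one']
  have h4 : f.eval x = (P n).eval x ^ 2 + (1 - x ^ 2) * (derivative (P n)).eval x ^ 2 / ((n : ℝ) * ((n : ℝ) + 1)) := by
    rw [hf]
    simp only [eval_mul, eval_sub, eval_add, eval_one, eval_X, eval_pow, eval_C]
    ring
  simp only [h3, h4] at h2
  exact h2

theorem abs_le_one (n : ℕ) {x : ℝ} (hx : |x| ≤ 1) : |(P n).eval x| ≤ 1 := by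
  have key : ∀ y : ℝ, 0 ≤ y → y ≤ 1 → |(P n).eval y| ≤ 1 := by
    intro y h0 h1
    by_cases hn : n = 0
    · rw [hn, P_zero]
      simp
    have h := le_one_aux hn h0 h1
    have hn0 : (0 : ℝ) < n := Nat.cast_pos.2 (Nat.pos_of_ne_zero hn)
    have h2 : 0 ≤ (1 - y ^ 2) * (derivative (P n)).eval y ^ 2 / ((n : ℝ) * ((n : ℝ) + 1)) := by
      have : 0 ≤ 1 - y ^ 2 := by nlinarith
      positivity
    exact (sq_le_one_iff_abs_le_one _).1 (by linarith)
  have h := abs_le.1 hx
  rcases le_total 0 x with h0 | h0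
  · exact key x h0 h.2
  · have h1 := key (-x) (by linarith) (by linarith)
    rw [eval_neg', abs_mul, abs_pow, abs_neg, abs_one, one_pow, one_mul] at h1
    exact h1

/-- `(1 - x ^ 2) P' ^ 2 ≤ n (n + 1)` on `[-1, 1]` -/
theorem der_sq_le (n : ℕ) {x : ℝ} (hx : |x| ≤ 1) :
    (1 - x ^ 2) * (derivative (P n)).eval x ^ 2 ≤ (n : ℝ) * ((n : ℝ) + 1) := by
  have key : ∀ y : ℝ, 0 ≤ y → y ≤ 1 → (1 - y ^ 2) * (derivative (P n)).eval y ^ 2 ≤ (n : ℝ) * ((n : ℝ) + 1) := by
    intro y h0 h1
    by_cases hn : n = 0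
    · rw [hn, P_zero]
      simp
    have h := le_one_aux hn h0 h1
    have hn0 : (0 : ℝ) < n := Nat.cast_pos.2 (Nat.pos_of_ne_zero hn)
    have h3 : 0 < (n : ℝ) * ((n : ℝ) + 1) := by positivity
    have h2 : (1 - y ^ 2) * (derivative (P n)).eval y ^ 2 / ((n : ℝ) * ((n : ℝ) + 1)) ≤ 1 := by
      have := sq_nonneg ((P n).eval y)
      linarith
    rwa [div_le_one h3] at h2
  have h := abs_le.1 hx
  rcases le_total 0 x with h0 | h0
  · exact key x h0 h.2
  · have h1 := key (-x) (by linarith) (by linarith)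
    have h2 : (derivative (P n)).eval (-x) ^ 2 = (derivative (P n)).eval x ^ 2 := by
      have hc : (P n).comp (-X) = C ((-1) ^ n) * P n := by
        refine Polynomial.funext fun z => ?_
        rw [eval_comp, eval_mul, eval_C, eval_neg, eval_X, eval_neg']
      have hd := congrArg (fun p => (derivative p).eval x) hc
      simp only [derivative_comp, derivative_neg, derivative_X, eval_mul, eval_neg, eval_one, eval_comp, eval_X,
        derivative_C, zero_mul, zero_add, derivative_mul, eval_C] at hd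
      have h3 : (derivative (P n)).eval (-x) ^ 2 = ((-1 : ℝ) * (derivative (P n)).eval (-x)) ^ 2 := by ring
      rw [h3, hd, mul_pow, ← pow_mul, mul_comm n 2, pow_mul]
      norm_num
    rw [neg_sq, h2] at h1
    exact h1

/-- growth to the right of `1` -/
private theorem growth {q x : ℝ} (hq : 1 ≤ q) (h1 : 1 ≤ x) (hx : 2 * x ≤ q + 1 / q) (n : ℕ) :
    0 < (P n).eval x ∧ x * (P n).eval x ≤ (P (n + 1)).eval x ∧ (P (n + 1)).eval x ≤ q * (P n).eval x := by
  have hq0 : 0 < q := by linarith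
  have hxq : x ≤ q := by
    have : 1 / q ≤ q := by
      rw [div_le_iff₀ hq0]
      nlinarith
    linarith
  induction n with
  | zero =>
    rw [P_zero, zero_add, P_one]
    simp only [eval_one, eval_X, mul_one]
    exact ⟨one_pos, le_rfl, hxq⟩
  | succ n ih =>
    obtain ⟨ha, hb, hc⟩ := ih
    have hp : 0 < (P (n + 1)).eval x := by nlinarith
    refine ⟨hp, ?_, ?_⟩
    · have hr := rec_eval n x
      have h2 : ((n : ℝ) + 1) * (P n).eval x ≤ ((n : ℝ) + 1) * (x * (P (n + 1)).eval x) := by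
        refine mul_le_mul_of_nonneg_left ?_ (by positivity)
        nlinarith
      have h3 : ((n : ℝ) + 2) * (x * (P (n + 1)).eval x) ≤ ((n : ℝ) + 2) * (P (n + 2)).eval x := by
        rw [hr]
        nlinarith
      exact le_of_mul_le_mul_left h3 (by positivity)
    · have hr := rec_eval n x
      have h2 : (P (n + 1)).eval x * (1 / q) ≤ (P n).eval x := by
        rw [mul_one_div, div_le_iff₀ hq0]
        linarith
      have h3 : ((n : ℝ) + 2) * (P (n + 2)).eval x ≤ ((n : ℝ) + 2) * (q * (P (n + 1)).eval x) := by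
        rw [hr]
        have h4 : (2 * (n : ℝ) + 3) * x * (P (n + 1)).eval x ≤
            (2 * (n : ℝ) + 3) * ((q + 1 / q) / 2) * (P (n + 1)).eval x := by
          refine mul_le_mul_of_nonneg_right (mul_le_mul_of_nonneg_left (by linarith) (by positivity)) hp.le
        have h5 : ((n : ℝ) + 1) * ((P (n + 1)).eval x * (1 / q)) ≤ ((n : ℝ) + 1) * (P n).eval x :=
          mul_le_mul_of_nonneg_left h2 (by positivity)
        have h6 : 1 / q ≤ q := by
          rw [div_le_iff₀ hq0]
          nlinarith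
        nlinarith [mul_le_mul_of_nonneg_right h6 hp.le]
      exact le_of_mul_le_mul_left h3 (by positivity)

/-- growth -/
theorem abs_le_pow (n : ℕ) {q x : ℝ} (hq : 1 ≤ q) (hx : 2 * |x| ≤ q + 1 / q) : |(P n).eval x| ≤ q ^ n := by
  rcases le_total |x| 1 with h | h
  · exact (abs_le_one n h).trans (one_le_pow₀ hq)
  · have key : ∀ m, (P m).eval |x| ≤ q ^ m := by
      intro m
      induction m with
      | zero =>
        rw [P_zero]
        simp
      | succ m ih =>
        refine (growth hq h hx m).2.2.trans ?_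
        rw [pow_succ, mul_comm (q ^ m)]
        exact mul_le_mul_of_nonneg_left ih (by linarith)
    have h1 : |(P n).eval x| = (P n).eval |x| := by
      rcases le_total 0 x with h0 | h0
      · rw [abs_of_nonneg h0] at h hx ⊢
        exact abs_of_pos (growth hq h hx n).1
      · have h2 : |x| = -x := abs_of_nonpos h0
        rw [h2] at h hx ⊢
        have h3 : |(P n).eval (-x)| = |(P n).eval x| := by
          rw [eval_neg', abs_mul, abs_pow, abs_neg, abs_one, one_pow, one_mul]
        rw [← h3, abs_of_pos (growth hq h hx n).1]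
    rw [h1]
    exact key n

private theorem abs_le_q {q x : ℝ} (hq : 1 ≤ q) (hx : 2 * |x| ≤ q + 1 / q) : |x| ≤ q := by
  have hq0 : 0 < q := by linarith
  have : 1 / q ≤ q := by
    rw [div_le_iff₀ hq0]
    nlinarith
  linarith

/-- growth of the derivative -/
theorem abs_der_le (n : ℕ) {q x : ℝ} (hq : 1 ≤ q) (hx : 2 * |x| ≤ q + 1 / q) :
    |(derivative (P n)).eval x| ≤ (n : ℝ) * ((n : ℝ) + 1) / 2 * q ^ n := by
  have hxq := abs_le_q hq hx
  induction n with
  | zero =>
    rw [P_zero]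
    simp
  | succ n ih =>
    rw [der_A, eval_add, eval_mul, eval_mul, eval_X, eval_C]
    refine (abs_add_le _ _).trans ?_
    rw [abs_mul, abs_mul, abs_of_nonneg (show (0 : ℝ) ≤ (n : ℝ) + 1 by positivity)]
    have h1 : |x| * |(derivative (P n)).eval x| ≤ q * ((n : ℝ) * ((n : ℝ) + 1) / 2 * q ^ n) :=
      mul_le_mul hxq ih (abs_nonneg _) (by linarith)
    have h2 : ((n : ℝ) + 1) * |(P n).eval x| ≤ ((n : ℝ) + 1) * (q * q ^ n) := by
      refine mul_le_mul_of_nonneg_left ((abs_le_pow n hq hx).trans ?_) (by positivity)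
      have : 0 ≤ q ^ n := by positivity
      nlinarith
    push_cast
    rw [pow_succ]
    nlinarith

/-- growth of the second derivative -/
theorem abs_der2_le (n : ℕ) {q x : ℝ} (hq : 1 ≤ q) (hx : 2 * |x| ≤ q + 1 / q) :
    |(derivative (derivative (P n))).eval x| ≤ ((n : ℝ) * ((n : ℝ) + 1)) ^ 2 / 8 * q ^ n := by
  have hxq := abs_le_q hq hx
  induction n with
  | zero =>
    rw [P_zero]
    simp
  | succ n ih =>
    have e : derivative (derivative (P (n + 1))) = X * derivative (derivative (P n)) + C ((n : ℝ) + 2) * derivative (P n) := by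
      rw [der_A]
      simp only [derivative_add, derivative_mul, derivative_X, derivative_C, zero_mul, zero_add, one_mul]
      have e1 : (C ((n : ℝ) + 1) : ℝ[X]) = C (n : ℝ) + 1 := by simp
      have e3 : (C ((n : ℝ) + 2) : ℝ[X]) = C (n : ℝ) + 2 := by rw [C_add, map_ofNat]
      rw [e1, e3]
      ring
    rw [e, eval_add, eval_mul, eval_mul, eval_X, eval_C]
    refine (abs_add_le _ _).trans ?_
    rw [abs_mul, abs_mul, abs_of_nonneg (show (0 : ℝ) ≤ (n : ℝ) + 2 by positivity)]
    have h1 : |x| * |(derivative (derivative (P n))).eval x| ≤ q * (((n : ℝ) * ((n : ℝ) + 1)) ^ 2 / 8 * q ^ n) :=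
      mul_le_mul hxq ih (abs_nonneg _) (by linarith)
    have h2 : ((n : ℝ) + 2) * |(derivative (P n)).eval x| ≤
        ((n : ℝ) + 2) * (q * ((n : ℝ) * ((n : ℝ) + 1) / 2 * q ^ n)) := by
      refine mul_le_mul_of_nonneg_left ((abs_der_le n hq hx).trans ?_) (by positivity)
      have : 0 ≤ (n : ℝ) * ((n : ℝ) + 1) / 2 * q ^ n := by positivity
      nlinarith
    push_cast
    rw [pow_succ q n]
    have h3 : 0 ≤ q * q ^ n := by positivity
    have h4 : ((n : ℝ) * ((n : ℝ) + 1)) ^ 2 / 8 + ((n : ℝ) + 2) * ((n : ℝ) * ((n : ℝ) + 1) / 2) ≤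
        (((n : ℝ) + 1) * ((n : ℝ) + 1 + 1)) ^ 2 / 8 := by
      have h5 : (0 : ℝ) ≤ (n : ℝ) := Nat.cast_nonneg n
      nlinarith [mul_nonneg h5 h5, mul_nonneg (mul_nonneg h5 h5) h5]
    nlinarith [mul_le_mul_of_nonneg_right h4 h3]

end Pool.Agent.H27.Leg
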