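import Pool.Agent.H27.Leg.Bd

/-!
# Products of Legendre polynomials (Adams)

`cq a b L` is the explicit coefficient of `P L` in `P a * P b`, a nonnegative rational number; `c a b L` the same as a real number.
-/

open Polynomial

namespace Pool.Agent.H27.Leg

/-- `1 * 3 * ... * (2 m - 1) / (2 * 4 * ... * 2 m)` -/
def al (m : ℕ) : ℚ := (Nat.centralBinom m : ℚ) / 4 ^ m

theorem al_pos (m : ℕ) : 0 < al m := by
  unfold al
  have := Nat.centralBinom_pos m
  positivity

theorem al_zero : al 0 = 1 := by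
  unfold al
  simp

theorem al_succ (m : ℕ) : 2 * ((m : ℚ) + 1) * al (m + 1) = (2 * (m : ℚ) + 1) * al m := by
  unfold al
  have h : ((m + 1 : ℕ) : ℚ) * (Nat.centralBinom (m + 1) : ℚ) = 2 * (2 * (m : ℚ) + 1) * (Nat.centralBinom m : ℚ) := by
    exact_mod_cast Nat.succ_mul_centralBinom_succ m
  push_cast at h
  rw [pow_succ]
  field_simp
  linarith

/-- the triangle condition -/
def Tri (a b L : ℕ) : Prop := (a + b + L) % 2 = 0 ∧ L ≤ a + b ∧ a ≤ b + L ∧ b ≤ a + L

instance (a b L : ℕ) : Decidable (Tri a b L) := by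
  unfold Tri
  infer_instance

/-- the coefficient of `P L` in `P a * P b` -/
def cq (a b L : ℕ) : ℚ :=
  if Tri a b L then
    (2 * (L : ℚ) + 1) / ((a : ℚ) + b + L + 1) *
      (al ((a + b + L) / 2 - a) * al ((a + b + L) / 2 - b) * al ((a + b + L) / 2 - L) / al ((a + b + L) / 2))
  else 0

/-- the coefficient of `P L` in `P a * P b` -/
noncomputable def c (a b L : ℕ) : ℝ := (cq a b L : ℝ)

theorem cq_nonneg (a b L : ℕ) : 0 ≤ cq a b L := by
  unfold cq
  split_ifs
  · have h1 := (al_pos ((a + b + L) / 2 - a)).le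
    have h2 := (al_pos ((a + b + L) / 2 - b)).le
    have h3 := (al_pos ((a + b + L) / 2 - L)).le
    have h4 := (al_pos ((a + b + L) / 2)).le
    positivity
  · exact le_rfl

theorem c_nonneg (a b L : ℕ) : 0 ≤ c a b L := by
  unfold c
  exact_mod_cast cq_nonneg a b L

theorem c_zero {a b L : ℕ} (h : ¬ Tri a b L) : c a b L = 0 := by
  unfold c cq
  rw [if_neg h]
  simp

theorem tri_symm {a b L : ℕ} : Tri a b L ↔ Tri b a L := by
  unfold Tri
  omega

theorem cq_symm (a b L : ℕ) : cq a b L = cq b a L := by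
  unfold cq
  have e : b + a + L = a + b + L := by omega
  by_cases h : Tri a b L
  · rw [if_pos h, if_pos (tri_symm.1 h), e]
    have e2 : ((b : ℚ) + a + L + 1) = (a : ℚ) + b + L + 1 := by ring
    rw [e2]
    ring
  · rw [if_neg h, if_neg (fun h' => h (tri_symm.1 h'))]

theorem c_symm (a b L : ℕ) : c a b L = c b a L := by
  unfold c
  rw [cq_symm]

/-- `c a b L / (2 L + 1)` is symmetric in `b`, `L` -/
theorem c_symm' (a b L : ℕ) : (2 * (b : ℝ) + 1) * c a b L = (2 * (L : ℝ) + 1) * c a L b := by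
  have h : (2 * (b : ℚ) + 1) * cq a b L = (2 * (L : ℚ) + 1) * cq a L b := by
    unfold cq
    have e : a + L + b = a + b + L := by omega
    have ht : Tri a L b ↔ Tri a b L := by
      unfold Tri
      omega
    by_cases h : Tri a b L
    · rw [if_pos h, if_pos (ht.2 h), e]
      have e2 : ((a : ℚ) + L + b + 1) = (a : ℚ) + b + L + 1 := by ring
      rw [e2]
      ring
    · rw [if_neg h, if_neg (fun h' => h (ht.1 h')), mul_zero, mul_zero]
  unfold c
  exact_mod_cast h

/-! ### the recurrence -/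

/-- `al`, extended by zero -/
private noncomputable def az (z : ℤ) : ℝ := if 0 ≤ z then (al z.toNat : ℝ) else 0

private theorem az_nat (m : ℕ) : az m = (al m : ℝ) := by
  unfold az
  rw [if_pos (by omega), Int.toNat_natCast]

private theorem az_neg {z : ℤ} (h : z < 0) : az z = 0 := by
  unfold az
  rw [if_neg (by omega)]

private theorem az_rec (z : ℤ) : 2 * (z : ℝ) * az z = (2 * (z : ℝ) - 1) * az (z - 1) := by
  rcases lt_trichotomy z 0 with h | h | h
  · rw [az_neg h, az_neg (by omega), mul_zero, mul_zero]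
  · rw [h, az_neg (show (0 : ℤ) - 1 < 0 by omega)]
    simp
  · obtain ⟨m, rfl⟩ : ∃ m : ℕ, z = (m : ℤ) + 1 := ⟨(z - 1).toNat, by omega⟩
    have e : ((m : ℤ) + 1) = ((m + 1 : ℕ) : ℤ) := by push_cast; ring
    rw [add_sub_cancel_right, az_nat, e, az_nat]
    have h2 := al_succ m
    have h3 : 2 * ((m : ℝ) + 1) * (al (m + 1) : ℝ) = (2 * (m : ℝ) + 1) * (al m : ℝ) := by exact_mod_cast h2
    push_cast
    linarith

/-- the formula with the extended function -/
private theorem c_az {a b L s : ℕ} (h : a + b + L = 2 * s) :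
    c a b L = (2 * (L : ℝ) + 1) / (2 * (s : ℝ) + 1) *
      (az ((s : ℤ) - a) * az ((s : ℤ) - b) * az ((s : ℤ) - L) / az s) := by
  by_cases ht : Tri a b L
  · have h2 := ht
    unfold Tri at h2
    have e1 : (a + b + L) / 2 = s := by omega
    have e2 : ((s : ℤ) - a) = ((s - a : ℕ) : ℤ) := by omega
    have e3 : ((s : ℤ) - b) = ((s - b : ℕ) : ℤ) := by omega
    have e4 : ((s : ℤ) - L) = ((s - L : ℕ) : ℤ) := by omega
    rw [e2, e3, e4, az_nat, az_nat, az_nat, az_nat]
    unfold c cq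
    rw [if_pos ht, e1]
    have e5 : ((a : ℚ) + b + L + 1) = 2 * (s : ℚ) + 1 := by
      have : ((a + b + L : ℕ) : ℚ) = ((2 * s : ℕ) : ℚ) := by rw [h]
      push_cast at this
      linarith
    rw [e5]
    push_cast
    ring
  · rw [c_zero ht]
    have h3 : (s : ℤ) - a < 0 ∨ (s : ℤ) - b < 0 ∨ (s : ℤ) - L < 0 := by
      unfold Tri at ht
      by_contra h4
      apply ht
      omega
    rcases h3 with h3 | h3 | h3 <;> rw [az_neg h3] <;> simp

private theorem alg (u v w : ℤ) {x x' y y' z z' : ℝ} (hx : 2 * ((u : ℝ) + 1) * x' = (2 * (u : ℝ) + 1) * x)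
    (hy : 2 * (v : ℝ) * y = (2 * (v : ℝ) - 1) * y') (hz : 2 * (w : ℝ) * z = (2 * (w : ℝ) - 1) * z') :
    ((v : ℝ) + w) * (2 * ((u : ℝ) + v) + 1) * (2 * ((u : ℝ) + v + w)) * (x * y * z) +
      ((v : ℝ) + w - 1) * (2 * ((u : ℝ) + v) + 1) * (2 * ((u : ℝ) + v + w) + 1) * (x' * y' * z') =
    (2 * ((v : ℝ) + w) - 1) * (((u : ℝ) + v) * (2 * ((u : ℝ) + v + w) + 1) * (x * y' * z) +
      ((u : ℝ) + v + 1) * (2 * ((u : ℝ) + v + w)) * (x' * y * z')) := by
  have hv : (2 * (v : ℝ) - 1) ≠ 0 := by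
    intro h
    have : (2 * v - 1 : ℤ) = 0 := by exact_mod_cast h
    omega
  have hw : (2 * (w : ℝ) - 1) ≠ 0 := by
    intro h
    have : (2 * w - 1 : ℤ) = 0 := by exact_mod_cast h
    omega
  by_cases hu : u = -1
  · subst hu
    push_cast at hx ⊢
    have hx0 : x = 0 := by linarith
    subst hx0
    linear_combination (-(x' * z' * (2 * ((v : ℝ) + w) - 1) * ((v : ℝ) + w - 1))) * hy
  · have hu' : ((u : ℝ) + 1) ≠ 0 := by
      intro h
      apply hu
      have : (u + 1 : ℤ) = 0 := by exact_mod_cast h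
      omega
    have hD : 2 * ((u : ℝ) + 1) * (2 * (v : ℝ) - 1) * (2 * (w : ℝ) - 1) ≠ 0 :=
      mul_ne_zero (mul_ne_zero (mul_ne_zero two_ne_zero hu') hv) hw
    have p1 : 2 * ((u : ℝ) + 1) * (2 * (v : ℝ) - 1) * (2 * (w : ℝ) - 1) * (x' * y' * z') =
        (2 * (u : ℝ) + 1) * x * (2 * (v : ℝ) * y) * (2 * (w : ℝ) * z) := by
      rw [hy, hz, ← hx]
      ring
    have p3 : 2 * ((u : ℝ) + 1) * (2 * (v : ℝ) - 1) * (2 * (w : ℝ) - 1) * (x * y' * z) =
        2 * ((u : ℝ) + 1) * (2 * (w : ℝ) - 1) * (x * z) * (2 * (v : ℝ) * y) := by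
      rw [hy]
      ring
    have p4 : 2 * ((u : ℝ) + 1) * (2 * (v : ℝ) - 1) * (2 * (w : ℝ) - 1) * (x' * y * z') =
        (2 * (v : ℝ) - 1) * y * ((2 * (u : ℝ) + 1) * x) * (2 * (w : ℝ) * z) := by
      rw [hz, ← hx]
      ring
    refine mul_left_cancel₀ hD ?_
    linear_combination (((v : ℝ) + w - 1) * (2 * ((u : ℝ) + v) + 1) * (2 * ((u : ℝ) + v + w) + 1)) * p1 -
      ((2 * ((v : ℝ) + w) - 1) * ((u : ℝ) + v) * (2 * ((u : ℝ) + v + w) + 1)) * p3 -
      ((2 * ((v : ℝ) + w) - 1) * ((u : ℝ) + v + 1) * (2 * ((u : ℝ) + v + w))) * p4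

/-- the recurrence of the coefficients -/
theorem c_rec (a b L : ℕ) :
    ((a : ℝ) + 1) * c (a + 1) b L + (a : ℝ) * c (a - 1) b L =
      (2 * (a : ℝ) + 1) * ((L : ℝ) / (2 * (L : ℝ) - 1) * c a b (L - 1) + ((L : ℝ) + 1) / (2 * (L : ℝ) + 3) * c a b (L + 1)) := by
  by_cases hpar : (a + 1 + b + L) % 2 = 0
  · obtain ⟨s, hs⟩ : ∃ s : ℕ, a + 1 + b + L = 2 * s := ⟨(a + 1 + b + L) / 2, by omega⟩
    have hs1 : 1 ≤ s := by omega
    have hs' : ((s : ℤ) - 1) = ((s - 1 : ℕ) : ℤ) := by omega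
    have hsr : ((s - 1 : ℕ) : ℝ) = (s : ℝ) - 1 := by
      rw [Nat.cast_sub hs1, Nat.cast_one]
    set u : ℤ := (s : ℤ) - a - 1 with hu
    set v : ℤ := (s : ℤ) - b with hv
    set w : ℤ := (s : ℤ) - L with hw
    have hS : 0 < az s := by
      rw [az_nat]
      exact_mod_cast al_pos s
    have hS' : 0 < az ((s : ℤ) - 1) := by
      rw [hs', az_nat]
      exact_mod_cast al_pos (s - 1)
    have rS := az_rec s
    have rx := az_rec (u + 1)
    have ry := az_rec v
    have rz := az_rec w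
    rw [add_sub_cancel_right] at rx
    have c1 : c (a + 1) b L = (2 * (L : ℝ) + 1) / (2 * (s : ℝ) + 1) * (az u * az v * az w / az s) := by
      rw [c_az hs]
      have e : (s : ℤ) - ((a + 1 : ℕ) : ℤ) = u := by omega
      rw [e]
    have c2 : (L : ℝ) / (2 * (L : ℝ) - 1) * c a b (L - 1) =
        (L : ℝ) / (2 * (s : ℝ) - 1) * (az u * az (v - 1) * az w / az ((s : ℤ) - 1)) := by
      rcases Nat.eq_zero_or_pos L with h0 | h0
      · rw [h0]
        simp
      · have h3 : a + b + (L - 1) = 2 * (s - 1) := by omega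
        rw [c_az h3]
        have e1 : ((s - 1 : ℕ) : ℤ) - a = u := by omega
        have e2 : ((s - 1 : ℕ) : ℤ) - b = v - 1 := by omega
        have e3 : ((s - 1 : ℕ) : ℤ) - ((L - 1 : ℕ) : ℤ) = w := by omega
        have e4 : ((L - 1 : ℕ) : ℝ) = (L : ℝ) - 1 := by
          rw [Nat.cast_sub h0, Nat.cast_one]
        rw [e1, e2, e3, e4, hsr, ← hs']
        have h4 : (2 * (L : ℝ) - 1) ≠ 0 := by
          have : (1 : ℝ) ≤ L := by exact_mod_cast h0
          have h5 : (0 : ℝ) < 2 * (L : ℝ) - 1 := by linarith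
          exact h5.ne'
        have e5 : 2 * ((L : ℝ) - 1) + 1 = 2 * (L : ℝ) - 1 := by ring
        have e6 : 2 * ((s : ℝ) - 1) + 1 = 2 * (s : ℝ) - 1 := by ring
        rw [e5, e6, ← mul_assoc, div_mul_div_cancel₀ h4]
    have c3 : ((L : ℝ) + 1) / (2 * (L : ℝ) + 3) * c a b (L + 1) =
        ((L : ℝ) + 1) / (2 * (s : ℝ) + 1) * (az (u + 1) * az v * az (w - 1) / az s) := by
      have h3 : a + b + (L + 1) = 2 * s := by omega
      rw [c_az h3]
      have e1 : (s : ℤ) - a = u + 1 := by omega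
      have e3 : (s : ℤ) - ((L + 1 : ℕ) : ℤ) = w - 1 := by omega
      rw [e1, e3]
      have e5 : 2 * ((L + 1 : ℕ) : ℝ) + 1 = 2 * (L : ℝ) + 3 := by
        push_cast
        ring
      have h4 : (2 * (L : ℝ) + 3) ≠ 0 := by positivity
      rw [e5, ← mul_assoc, div_mul_div_cancel₀ h4]
    have c4 : (a : ℝ) * c (a - 1) b L =
        (a : ℝ) * ((2 * (L : ℝ) + 1) / (2 * (s : ℝ) - 1) * (az (u + 1) * az (v - 1) * az (w - 1) / az ((s : ℤ) - 1))) := by
      rcases Nat.eq_zero_or_pos a with h0 | h0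
      · rw [h0]
        simp
      · have h3 : (a - 1) + b + L = 2 * (s - 1) := by omega
        rw [c_az h3]
        have e1 : ((s - 1 : ℕ) : ℤ) - ((a - 1 : ℕ) : ℤ) = u + 1 := by omega
        have e2 : ((s - 1 : ℕ) : ℤ) - b = v - 1 := by omega
        have e3 : ((s - 1 : ℕ) : ℤ) - L = w - 1 := by omega
        rw [e1, e2, e3, hsr, ← hs']
        have e6 : 2 * ((s : ℝ) - 1) + 1 = 2 * (s : ℝ) - 1 := by ring
        rw [e6]
    rw [c1, c4, c2, c3]
    have hsR : (1 : ℝ) ≤ s := by exact_mod_cast hs1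
    have h5 : (2 * (s : ℝ) - 1) ≠ 0 := by
      have : (0 : ℝ) < 2 * (s : ℝ) - 1 := by linarith
      exact this.ne'
    have h6 : (2 * (s : ℝ) + 1) ≠ 0 := by positivity
    have hS0 := hS.ne'
    have hS0' := hS'.ne'
    push_cast at rS rx
    have eS : az ((s : ℤ) - 1) = 2 * (s : ℝ) * az s / (2 * (s : ℝ) - 1) := by
      field_simp
      linarith
    have ea : (a : ℝ) = (v : ℝ) + w - 1 := by
      have : (a : ℤ) = v + w - 1 := by omega
      exact_mod_cast this
    have eL : (L : ℝ) = (u : ℝ) + v := by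
      have : (L : ℤ) = u + v := by omega
      exact_mod_cast this
    have es : (s : ℝ) = (u : ℝ) + v + w := by
      have : (s : ℤ) = u + v + w := by omega
      exact_mod_cast this
    have hx : 2 * ((u : ℝ) + 1) * az (u + 1) = (2 * (u : ℝ) + 1) * az u := by
      rw [rx]
      ring
    have hA := alg u v w hx ry rz
    have hs0 : (s : ℝ) ≠ 0 := by positivity
    rw [eS]
    have hfin : ((a : ℝ) + 1) * (2 * (L : ℝ) + 1) * (2 * (s : ℝ)) * (az u * az v * az w) +
        (a : ℝ) * (2 * (L : ℝ) + 1) * (2 * (s : ℝ) + 1) * (az (u + 1) * az (v - 1) * az (w - 1)) =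
        (2 * (a : ℝ) + 1) * ((L : ℝ) * (2 * (s : ℝ) + 1) * (az u * az (v - 1) * az w) +
        ((L : ℝ) + 1) * (2 * (s : ℝ)) * (az (u + 1) * az v * az (w - 1))) := by
      rw [ea, eL, es]
      linear_combination hA
    field_simp
    linear_combination hfin
  · have h1 : c (a + 1) b L = 0 := c_zero (by unfold Tri; omega)
    have h2 : (a : ℝ) * c (a - 1) b L = 0 := by
      rcases Nat.eq_zero_or_pos a with h0 | h0
      · rw [h0]
        simp
      · rw [c_zero (by unfold Tri; omega), mul_zero]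
    have h3 : (L : ℝ) / (2 * (L : ℝ) - 1) * c a b (L - 1) = 0 := by
      rcases Nat.eq_zero_or_pos L with h0 | h0
      · rw [h0]
        simp
      · rw [c_zero (by unfold Tri; omega), mul_zero]
    have h4 : c a b (L + 1) = 0 := c_zero (by unfold Tri; omega)
    rw [h1, h2, h3, h4]
    ring

/-- `X` times a sum -/
theorem X_mul_sum (g : ℕ → ℝ) (M : ℕ) (h1 : g (M + 1) = 0) (h2 : g (M + 2) = 0) :
    X * ∑ L ∈ Finset.range (M + 1), C (g L) * P L =
      ∑ L ∈ Finset.range (M + 2),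
        C ((L : ℝ) / (2 * (L : ℝ) - 1) * g (L - 1) + ((L : ℝ) + 1) / (2 * (L : ℝ) + 3) * g (L + 1)) * P L := by
  have hX : ∀ L : ℕ, X * P L = C (((L : ℝ) + 1) / (2 * (L : ℝ) + 1)) * P (L + 1) + C ((L : ℝ) / (2 * (L : ℝ) + 1)) * P (L - 1) := by
    intro L
    have h := X_mul L
    have h3 : (2 * (L : ℝ) + 1) ≠ 0 := by positivity
    have h4 : C (1 / (2 * (L : ℝ) + 1)) * (C (2 * (L : ℝ) + 1) * (X * P L)) =
        C (1 / (2 * (L : ℝ) + 1)) * (C ((L : ℝ) + 1) * P (L + 1) + C (L : ℝ) * P (L - 1)) := by rw [h]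
    rw [← mul_assoc, ← C_mul, one_div_mul_cancel h3, C_1, one_mul] at h4
    rw [h4, mul_add, ← mul_assoc, ← mul_assoc, ← C_mul, ← C_mul, one_div_mul_eq_div, one_div_mul_eq_div]
  have e1 : X * ∑ L ∈ Finset.range (M + 1), C (g L) * P L =
      ∑ L ∈ Finset.range (M + 1), C (g L * (((L : ℝ) + 1) / (2 * (L : ℝ) + 1))) * P (L + 1) +
      ∑ L ∈ Finset.range (M + 1), C (g L * ((L : ℝ) / (2 * (L : ℝ) + 1))) * P (L - 1) := by
    rw [Finset.mul_sum, ← Finset.sum_add_distrib]
    refine Finset.sum_congr rfl fun L _ => ?_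
    rw [mul_left_comm, hX, mul_add, ← mul_assoc, ← mul_assoc, ← C_mul, ← C_mul]
  have e2 : ∑ L ∈ Finset.range (M + 1), C (g L * (((L : ℝ) + 1) / (2 * (L : ℝ) + 1))) * P (L + 1) =
      ∑ L ∈ Finset.range (M + 2), C ((L : ℝ) / (2 * (L : ℝ) - 1) * g (L - 1)) * P L := by
    rw [Finset.sum_range_succ' _ (M + 1)]
    simp only [Nat.cast_zero, zero_div, zero_mul, C_0, add_zero]
    refine Finset.sum_congr rfl fun L _ => ?_
    rw [Nat.add_sub_cancel]
    have : ((L + 1 : ℕ) : ℝ) / (2 * ((L + 1 : ℕ) : ℝ) - 1) * g L = g L * (((L : ℝ) + 1) / (2 * (L : ℝ) + 1)) := by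
      push_cast
      have e : 2 * ((L : ℝ) + 1) - 1 = 2 * (L : ℝ) + 1 := by ring
      rw [e]
      ring
    rw [this]
  have e3 : ∑ L ∈ Finset.range (M + 1), C (g L * ((L : ℝ) / (2 * (L : ℝ) + 1))) * P (L - 1) =
      ∑ L ∈ Finset.range (M + 2), C (((L : ℝ) + 1) / (2 * (L : ℝ) + 3) * g (L + 1)) * P L := by
    rw [Finset.sum_range_succ' _ M, Finset.sum_range_succ, Finset.sum_range_succ, h1, h2]
    simp only [Nat.cast_zero, zero_div, mul_zero, C_0, zero_mul, add_zero]
    refine Finset.sum_congr rfl fun L _ => ?_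
    rw [Nat.add_sub_cancel]
    have : g (L + 1) * (((L + 1 : ℕ) : ℝ) / (2 * ((L + 1 : ℕ) : ℝ) + 1)) = ((L : ℝ) + 1) / (2 * (L : ℝ) + 3) * g (L + 1) := by
      push_cast
      have e : 2 * ((L : ℝ) + 1) + 1 = 2 * (L : ℝ) + 3 := by ring
      rw [e]
      ring
    rw [this]
  rw [e1, e2, e3, ← Finset.sum_add_distrib]
  refine Finset.sum_congr rfl fun L _ => ?_
  rw [C_add, add_mul]

private theorem c_zero_left (b L : ℕ) : c 0 b L = if L = b then 1 else 0 := by
  by_cases h : L = b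
  · subst h
    rw [if_pos rfl]
    unfold c cq
    rw [if_pos (by unfold Tri; omega)]
    have e : (0 + L + L) / 2 = L := by omega
    rw [e, Nat.sub_zero, Nat.sub_self, al_zero]
    have h1 := (al_pos L).ne'
    push_cast
    have h2 : (al L : ℝ) ≠ 0 := by exact_mod_cast h1
    have h3 : (2 * (L : ℝ) + 1) ≠ 0 := by positivity
    have e2 : (0 : ℝ) + L + L + 1 = 2 * (L : ℝ) + 1 := by ring
    rw [e2]
    field_simp
  · rw [if_neg h]
    exact c_zero (by unfold Tri; omega)

theorem c_range {a b L : ℕ} (h : a + b < L) : c a b L = 0 := c_zero (by unfold Tri; omega)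

private theorem sum_range_ext (a b N : ℕ) (h : a + b + 1 ≤ N) :
    ∑ L ∈ Finset.range N, C (c a b L) * P L = ∑ L ∈ Finset.range (a + b + 1), C (c a b L) * P L := by
  symm
  refine Finset.sum_subset (Finset.range_subset_range.2 h) fun L _ hL => ?_
  rw [Finset.mem_range, not_lt] at hL
  rw [c_range (by omega), C_0, zero_mul]

private theorem prod_aux (b : ℕ) (a : ℕ) : P a * P b = ∑ L ∈ Finset.range (a + b + 1), C (c a b L) * P L := by
  induction a using Nat.strong_induction_on with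
  | _ a ih =>
    rcases Nat.eq_zero_or_pos a with h0 | h0
    · subst h0
      rw [P_zero, one_mul, Finset.sum_eq_single b]
      · rw [c_zero_left, if_pos rfl, C_1, one_mul]
      · intro L _ hL
        rw [c_zero_left, if_neg hL, C_0, zero_mul]
      · intro h
        exact absurd (Finset.mem_range.2 (by omega)) h
    · obtain ⟨m, rfl⟩ : ∃ m, a = m + 1 := ⟨a - 1, by omega⟩
      have hm := ih m (by omega)
      have hR := X_mul m
      have hsum := X_mul_sum (c m b) (m + b) (c_range (by omega)) (c_range (by omega))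
      rw [← hm] at hsum
      have e1 : C ((m : ℝ) + 1) * (P (m + 1) * P b) = C (2 * (m : ℝ) + 1) * (X * (P m * P b)) - C (m : ℝ) * (P (m - 1) * P b) := by
        linear_combination (-(P b)) * hR
      have e2 : C (m : ℝ) * (P (m - 1) * P b) = C (m : ℝ) * ∑ L ∈ Finset.range (m + b + 2), C (c (m - 1) b L) * P L := by
        rcases Nat.eq_zero_or_pos m with h1 | h1
        · subst h1
          simp
        · rw [ih (m - 1) (by omega), sum_range_ext (m - 1) b (m + b + 2) (by omega)]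
      have e3 : C ((m : ℝ) + 1) * (P (m + 1) * P b) =
          C ((m : ℝ) + 1) * ∑ L ∈ Finset.range (m + b + 2), C (c (m + 1) b L) * P L := by
        rw [e1, e2, hsum, Finset.mul_sum, Finset.mul_sum, Finset.mul_sum, ← Finset.sum_sub_distrib]
        refine Finset.sum_congr rfl fun L _ => ?_
        have h5 := c_rec m b L
        rw [← mul_assoc, ← mul_assoc, ← mul_assoc, ← C_mul, ← C_mul, ← C_mul, ← sub_mul, ← C_sub]
        congr 2
        linarith
      have h6 : (C ((m : ℝ) + 1) : ℝ[X]) ≠ 0 := by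
        rw [Ne, C_eq_zero]
        positivity
      have e4 : m + 1 + b + 1 = m + b + 2 := by omega
      rw [e4]
      exact mul_left_cancel₀ h6 e3

/-- the product formula -/
theorem P_mul (a b : ℕ) : P a * P b = ∑ L ∈ Finset.range (a + b + 1), C (c a b L) * P L := prod_aux b a

theorem P_mul' (a b N : ℕ) (h : a + b + 1 ≤ N) : P a * P b = ∑ L ∈ Finset.range N, C (c a b L) * P L := by
  rw [P_mul, sum_range_ext a b N h]

theorem P_mul_eval (a b N : ℕ) (h : a + b + 1 ≤ N) (x : ℝ) :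
    (P a).eval x * (P b).eval x = ∑ L ∈ Finset.range N, c a b L * (P L).eval x := by
  rw [← eval_mul, P_mul' a b N h, eval_finsetSum]
  refine Finset.sum_congr rfl fun L _ => ?_
  rw [eval_mul, eval_C]

/-- the coefficients are a probability distribution -/
theorem c_sum (a b N : ℕ) (h : a + b + 1 ≤ N) : ∑ L ∈ Finset.range N, c a b L = 1 := by
  have h1 := P_mul_eval a b N h 1
  simp only [eval_one', mul_one] at h1
  exact h1.symm

theorem c_zero_right (a b : ℕ) : c a b 0 = if a = b then 1 / (2 * (a : ℝ) + 1) else 0 := by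
  by_cases h : a = b
  · subst h
    rw [if_pos rfl]
    have h1 := c_symm' a a 0
    rw [c_symm a 0 a, c_zero_left, if_pos rfl] at h1
    have h3 : (2 * (a : ℝ) + 1) ≠ 0 := by positivity
    rw [eq_div_iff h3, mul_comm, h1]
    simp
  · rw [if_neg h]
    exact c_zero (by unfold Tri; omega)

end Pool.Agent.H27.Leg
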