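import Pool.Agent.H27.Leg.Grad

/-!
# The algebra of absolutely convergent Legendre series

`W A w`: the series `∑ f L P L` with coefficients in a commutative Banach algebra `A` and `∑ w L ‖f L‖ < ∞`, for a weight `w`. It is
the space `ℓ¹` of the sequences `w L f L` (scaled coefficients `sc f L`, coefficients `co f L`); `mono L y` is the element with the
single scaled coefficient `y` (the series `y (w L)⁻¹ P L`). `op` is the bilinear operation `W A w₁ × W A w₂ → W A w₃` with given
coefficients.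
-/

open Polynomial

namespace Pool.Agent.H27.Leg

/-! ### independence and associativity -/

/-- `P 0` is the unit -/
theorem c_right_zero (b L : ℕ) : c b 0 L = if L = b then 1 else 0 := by
  have h := c_symm' b L 0
  rw [c_zero_right] at h
  have h2 : (0 : ℝ) < 2 * (L : ℝ) + 1 := by positivity
  by_cases hb : L = b
  · subst hb
    rw [if_pos rfl] at h
    rw [if_pos rfl]
    push_cast at h
    have h3 : (2 * (L : ℝ) + 1) * (1 / (2 * (L : ℝ) + 1)) = 1 := by field_simp
    rw [h3] at h
    linarith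
  · rw [if_neg (fun e => hb e.symm)] at h
    rw [if_neg hb]
    push_cast at h
    linarith

/-- `P 0` is the unit -/
theorem c_left_zero (b L : ℕ) : c 0 b L = if L = b then 1 else 0 := by
  rw [c_symm, c_right_zero]

private theorem coeff_P_ne (n : ℕ) : (P n).coeff n ≠ 0 := by
  induction n using Nat.strong_induction_on with
  | _ n ih =>
    match n, ih with
    | 0, _ => rw [P_zero]; simp
    | 1, _ => rw [P_one]; simp
    | n + 2, ih =>
      have h1 := ih (n + 1) (by omega)
      have h2 : (P n).coeff (n + 2) = 0 := coeff_eq_zero_of_natDegree_lt (lt_of_le_of_lt (natDegree_le n) (by omega))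
      rw [P, coeff_C_mul, coeff_sub, mul_assoc, coeff_C_mul, coeff_C_mul, h2, coeff_X_mul]
      have h3 : (1 / ((n : ℝ) + 2)) ≠ 0 := by positivity
      have h4 : (2 * (n : ℝ) + 3) ≠ 0 := by positivity
      rw [mul_zero, sub_zero]
      exact mul_ne_zero h3 (mul_ne_zero h4 h1)

/-- the polynomials `P n` are linearly independent -/
theorem P_indep (N : ℕ) (g : ℕ → ℝ) (h : ∑ L ∈ Finset.range N, C (g L) * P L = 0) : ∀ L < N, g L = 0 := by
  induction N with
  | zero => intro L hL; omega
  | succ N ih =>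
    have h1 : g N = 0 := by
      have h2 := congrArg (fun p => coeff p N) h
      simp only [coeff_zero] at h2
      rw [Finset.sum_range_succ, coeff_add, finsetSum_coeff, Finset.sum_eq_zero, zero_add, coeff_C_mul] at h2
      · exact (mul_eq_zero.1 h2).resolve_right (coeff_P_ne N)
      · intro L hL
        rw [coeff_C_mul, coeff_eq_zero_of_natDegree_lt (lt_of_le_of_lt (natDegree_le L) (Finset.mem_range.1 hL)), mul_zero]
    have h3 : ∑ L ∈ Finset.range N, C (g L) * P L = 0 := by
      rw [Finset.sum_range_succ, h1, C_0, zero_mul, add_zero] at h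
      exact h
    intro L hL
    rcases Nat.lt_succ_iff_lt_or_eq.1 hL with h4 | h4
    · exact ih h3 L h4
    · rw [h4]
      exact h1

/-- associativity of the coefficients -/
theorem c_assoc (a b d K N : ℕ) (h : a + b + d + 1 ≤ N) :
    ∑ L ∈ Finset.range N, c a b L * c L d K = ∑ L ∈ Finset.range N, c b d L * c a L K := by
  have e1 : P a * P b * P d = ∑ J ∈ Finset.range N, C (∑ L ∈ Finset.range N, c a b L * c L d J) * P J := by
    rw [P_mul' a b N (by omega), Finset.sum_mul]
    have : ∀ L ∈ Finset.range N, C (c a b L) * P L * P d = ∑ J ∈ Finset.range N, C (c a b L * c L d J) * P J := by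
      intro L _
      by_cases hL : a + b < L
      · rw [c_range hL]
        simp
      · rw [mul_assoc, P_mul' L d N (by omega), Finset.mul_sum]
        refine Finset.sum_congr rfl fun J _ => ?_
        rw [C_mul, mul_assoc]
    rw [Finset.sum_congr rfl this, Finset.sum_comm]
    refine Finset.sum_congr rfl fun J _ => ?_
    rw [map_sum, Finset.sum_mul]
  have e2 : P a * P b * P d = ∑ J ∈ Finset.range N, C (∑ L ∈ Finset.range N, c b d L * c a L J) * P J := by
    rw [mul_assoc, P_mul' b d N (by omega), Finset.mul_sum]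
    have : ∀ L ∈ Finset.range N, P a * (C (c b d L) * P L) = ∑ J ∈ Finset.range N, C (c b d L * c a L J) * P J := by
      intro L _
      by_cases hL : b + d < L
      · rw [c_range hL]
        simp
      · rw [mul_left_comm, P_mul' a L N (by omega), Finset.mul_sum]
        refine Finset.sum_congr rfl fun J _ => ?_
        rw [C_mul, mul_assoc]
    rw [Finset.sum_congr rfl this, Finset.sum_comm]
    refine Finset.sum_congr rfl fun J _ => ?_
    rw [map_sum, Finset.sum_mul]
  have e3 : ∑ J ∈ Finset.range N,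
      C (∑ L ∈ Finset.range N, c a b L * c L d J - ∑ L ∈ Finset.range N, c b d L * c a L J) * P J = 0 := by
    have : ∀ J ∈ Finset.range N,
        C (∑ L ∈ Finset.range N, c a b L * c L d J - ∑ L ∈ Finset.range N, c b d L * c a L J) * P J =
        C (∑ L ∈ Finset.range N, c a b L * c L d J) * P J - C (∑ L ∈ Finset.range N, c b d L * c a L J) * P J := by
      intro J _
      rw [C_sub, sub_mul]
    rw [Finset.sum_congr rfl this, Finset.sum_sub_distrib, ← e1, ← e2, sub_self]
  by_cases hK : K < N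
  · exact sub_eq_zero.1 (P_indep N _ e3 K hK)
  · have z1 : ∀ L ∈ Finset.range N, c a b L * c L d K = 0 := by
      intro L _
      by_cases hL : a + b < L
      · rw [c_range hL, zero_mul]
      · rw [c_range (show L + d < K by omega), mul_zero]
    have z2 : ∀ L ∈ Finset.range N, c b d L * c a L K = 0 := by
      intro L _
      by_cases hL : b + d < L
      · rw [c_range hL, zero_mul]
      · rw [c_range (show a + L < K by omega), mul_zero]
    rw [Finset.sum_eq_zero z1, Finset.sum_eq_zero z2]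

/-! ### the space -/

/-- absolutely convergent Legendre series with coefficients in `A` and weight `w` -/
def W (A : Type) [NormedCommRing A] (_w : ℕ → ℝ) : Type := lp (fun _ : ℕ => A) 1

variable {A : Type} [NormedCommRing A] {w w₁ w₂ w₃ : ℕ → ℝ}

noncomputable instance : NormedAddCommGroup (W A w) := inferInstanceAs (NormedAddCommGroup (lp (fun _ : ℕ => A) 1))

noncomputable instance [NormedAlgebra ℝ A] : NormedSpace ℝ (W A w) :=
  inferInstanceAs (NormedSpace ℝ (lp (fun _ : ℕ => A) 1))

instance [CompleteSpace A] : CompleteSpace (W A w) := inferInstanceAs (CompleteSpace (lp (fun _ : ℕ => A) 1))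

/-- the scaled coefficient `w n * f n` -/
def sc (f : W A w) (n : ℕ) : A := (show lp (fun _ : ℕ => A) 1 from f) n

/-- the element with one scaled coefficient -/
noncomputable def mono (n : ℕ) (y : A) : W A w := show lp (fun _ : ℕ => A) 1 from lp.single 1 n y

/-- the element with given scaled coefficients -/
noncomputable def mk (g : ℕ → A) (h : Summable fun n => ‖g n‖) : W A w :=
  show lp (fun _ : ℕ => A) 1 from ⟨g, (memℓp_gen_iff (by norm_num)).2 (by simpa using h)⟩

theorem sc_mk (g : ℕ → A) (h : Summable fun n => ‖g n‖) (n : ℕ) : sc (mk g h : W A w) n = g n := rfl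

@[ext] theorem W.ext {f g : W A w} (h : ∀ n, sc f n = sc g n) : f = g := lp.ext (funext h)

theorem sc_add (f g : W A w) (n : ℕ) : sc (f + g) n = sc f n + sc g n := rfl

theorem sc_sub (f g : W A w) (n : ℕ) : sc (f - g) n = sc f n - sc g n := rfl

theorem sc_neg (f : W A w) (n : ℕ) : sc (-f) n = - sc f n := rfl

theorem sc_zero (n : ℕ) : sc (0 : W A w) n = 0 := rfl

theorem sc_smul [NormedAlgebra ℝ A] (t : ℝ) (f : W A w) (n : ℕ) : sc (t • f) n = t • sc f n := rfl

theorem sc_mono (n m : ℕ) (y : A) : sc (mono n y : W A w) m = if m = n then y else 0 := by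
  unfold mono sc
  by_cases h : m = n
  · rw [if_pos h, h]
    exact lp.single_apply_self _ _ _
  · rw [if_neg h]
    exact lp.single_apply_ne _ _ _ h

theorem hasSum_norm (f : W A w) : HasSum (fun n => ‖sc f n‖) ‖f‖ := by
  have h : HasSum (fun n => ‖sc f n‖ ^ (1 : ENNReal).toReal) (‖f‖ ^ (1 : ENNReal).toReal) :=
    lp.hasSum_norm (E := fun _ : ℕ => A) (p := 1) (by norm_num) (show lp (fun _ : ℕ => A) 1 from f)
  simpa only [ENNReal.toReal_one, Real.rpow_one] using h

theorem summable_norm (f : W A w) : Summable fun n => ‖sc f n‖ := (hasSum_norm f).summable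

theorem norm_eq (f : W A w) : ‖f‖ = ∑' n, ‖sc f n‖ := (hasSum_norm f).tsum_eq.symm

theorem norm_mono (n : ℕ) (y : A) : ‖(mono n y : W A w)‖ = ‖y‖ :=
  lp.norm_single (E := fun _ : ℕ => A) (p := 1) one_pos n y

theorem norm_sc_le (f : W A w) (n : ℕ) : ‖sc f n‖ ≤ ‖f‖ :=
  le_hasSum (hasSum_norm f) n fun _ _ => norm_nonneg _

theorem hasSum_mono (f : W A w) : HasSum (fun n => (mono n (sc f n) : W A w)) f :=
  lp.hasSum_single (p := 1) ENNReal.one_ne_top (show lp (fun _ : ℕ => A) 1 from f)

theorem mono_add (n : ℕ) (y z : A) : (mono n (y + z) : W A w) = mono n y + mono n z :=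
  lp.single_add (E := fun _ : ℕ => A) 1 n y z

theorem mono_zero (n : ℕ) : (mono n (0 : A) : W A w) = 0 :=
  lp.single_zero (E := fun _ : ℕ => A) 1 n

theorem mono_sum {ι : Type*} (s : Finset ι) (n : ℕ) (y : ι → A) :
    (mono n (∑ i ∈ s, y i) : W A w) = ∑ i ∈ s, mono n (y i) := by
  classical
  induction s using Finset.induction_on with
  | empty => rw [Finset.sum_empty, Finset.sum_empty, mono_zero]
  | insert i s hi ih => rw [Finset.sum_insert hi, Finset.sum_insert hi, mono_add, ih]

theorem norm_mk (g : ℕ → A) (h : Summable fun n => ‖g n‖) : ‖(mk g h : W A w)‖ = ∑' n, ‖g n‖ := norm_eq _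

variable [NormedAlgebra ℝ A]

theorem mono_smul (n : ℕ) (t : ℝ) (y : A) : (mono n (t • y) : W A w) = t • mono n y :=
  lp.single_smul (𝕜 := ℝ) (E := fun _ : ℕ => A) 1 n t y

/-- the coefficient of `P n` -/
noncomputable def co (f : W A w) (n : ℕ) : A := (w n)⁻¹ • sc f n

theorem sc_eq_co (hw : ∀ n, w n ≠ 0) (f : W A w) (n : ℕ) : sc f n = w n • co f n := by
  unfold co
  rw [smul_smul, mul_inv_cancel₀ (hw n), one_smul]

theorem co_add (f g : W A w) (n : ℕ) : co (f + g) n = co f n + co g n := by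
  unfold co
  rw [sc_add, smul_add]

theorem co_sub (f g : W A w) (n : ℕ) : co (f - g) n = co f n - co g n := by
  unfold co
  rw [sc_sub, smul_sub]

theorem co_neg (f : W A w) (n : ℕ) : co (-f) n = - co f n := by
  unfold co
  rw [sc_neg, smul_neg]

theorem co_smul (t : ℝ) (f : W A w) (n : ℕ) : co (t • f) n = t • co f n := by
  unfold co
  rw [sc_smul, smul_comm]

theorem norm_co (f : W A w) (n : ℕ) : ‖co f n‖ = |w n|⁻¹ * ‖sc f n‖ := by
  unfold co
  rw [norm_smul, Real.norm_eq_abs, abs_inv]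

/-- the norm is the sum of `|w n| ‖co f n‖` -/
theorem hasSum_norm_co (hw : ∀ n, 0 < w n) (f : W A w) : HasSum (fun n => w n * ‖co f n‖) ‖f‖ := by
  have h : (fun n => w n * ‖co f n‖) = fun n => ‖sc f n‖ := by
    funext n
    rw [norm_co, abs_of_pos (hw n), ← mul_assoc, mul_inv_cancel₀ (hw n).ne', one_mul]
  rw [h]
  exact hasSum_norm f

/-- the scaled coefficient as a continuous linear map -/
noncomputable def scL (w : ℕ → ℝ) (n : ℕ) : W A w →L[ℝ] A :=
  LinearMap.mkContinuous
    { toFun := fun f => sc f n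
      map_add' := fun f g => sc_add f g n
      map_smul' := fun t f => sc_smul t f n } 1 (fun f => by
        rw [one_mul]
        exact norm_sc_le f n)

theorem scL_apply (n : ℕ) (f : W A w) : scL w n f = sc f n := rfl

/-- the monomial as a continuous linear map -/
noncomputable def monoL (w : ℕ → ℝ) (n : ℕ) : A →L[ℝ] W A w :=
  LinearMap.mkContinuous
    { toFun := fun y => mono n y
      map_add' := fun y z => mono_add n y z
      map_smul' := fun t y => mono_smul n t y } 1 (fun y => by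
        rw [one_mul]
        exact (norm_mono n y).le)

theorem monoL_apply (n : ℕ) (y : A) : monoL w n y = mono n y := rfl

/-- continuous linear maps which agree on the monomials are equal -/
theorem clm_ext {E : Type*} [NormedAddCommGroup E] [NormedSpace ℝ E] {T T' : W A w →L[ℝ] E}
    (h : ∀ n y, T (mono n y) = T' (mono n y)) : T = T' := by
  refine ContinuousLinearMap.ext fun f => ?_
  have h1 := (hasSum_mono f).mapL T
  have h2 := (hasSum_mono f).mapL T'
  have h3 : (fun n => T (mono n (sc f n))) = fun n => T' (mono n (sc f n)) := funext fun n => h n _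
  rw [h3] at h1
  exact h1.unique h2

/-! ### bilinear operations -/

/-- the product of two monomials, for the scaled coefficients `κ` -/
noncomputable def Mk (κ : ℕ → ℕ → ℕ → ℝ) (a b : ℕ) (y : A) : W A w :=
  ∑ L ∈ Finset.range (a + b + 1), mono L (κ a b L • y)

theorem Mk_add (κ : ℕ → ℕ → ℕ → ℝ) (a b : ℕ) (y z : A) : (Mk κ a b (y + z) : W A w) = Mk κ a b y + Mk κ a b z := by
  unfold Mk
  rw [← Finset.sum_add_distrib]
  refine Finset.sum_congr rfl fun L _ => ?_
  rw [smul_add, mono_add]

theorem Mk_smul (κ : ℕ → ℕ → ℕ → ℝ) (a b : ℕ) (t : ℝ) (y : A) : (Mk κ a b (t • y) : W A w) = t • Mk κ a b y := by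
  unfold Mk
  rw [Finset.smul_sum]
  refine Finset.sum_congr rfl fun L _ => ?_
  rw [smul_comm, mono_smul]

theorem Mk_zero (κ : ℕ → ℕ → ℕ → ℝ) (a b : ℕ) : (Mk κ a b (0 : A) : W A w) = 0 := by
  unfold Mk
  refine Finset.sum_eq_zero fun L _ => ?_
  rw [smul_zero, mono_zero]

theorem sc_Mk (κ : ℕ → ℕ → ℕ → ℝ) (a b L : ℕ) (y : A) :
    sc (Mk κ a b y : W A w) L = if L ≤ a + b then κ a b L • y else 0 := by
  have h : sc (Mk κ a b y : W A w) L = ∑ J ∈ Finset.range (a + b + 1), sc (mono J (κ a b J • y) : W A w) L :=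
    map_sum (scL w L) _ _
  rw [h]
  simp only [sc_mono]
  rw [Finset.sum_ite_eq]
  simp only [Finset.mem_range, Nat.lt_succ_iff]

theorem norm_Mk_le {κ : ℕ → ℕ → ℕ → ℝ} {B : ℝ} {a b : ℕ}
    (hk : ∑ L ∈ Finset.range (a + b + 1), |κ a b L| ≤ B) (y : A) : ‖(Mk κ a b y : W A w)‖ ≤ B * ‖y‖ := by
  unfold Mk
  refine (norm_sum_le _ _).trans ?_
  have h1 : ∀ L ∈ Finset.range (a + b + 1), ‖(mono L (κ a b L • y) : W A w)‖ ≤ |κ a b L| * ‖y‖ := by
    intro L _
    rw [norm_mono, norm_smul, Real.norm_eq_abs]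
  refine (Finset.sum_le_sum h1).trans ?_
  rw [← Finset.sum_mul]
  exact mul_le_mul_of_nonneg_right hk (norm_nonneg _)

/-- the scaled coefficients have sums of absolute values at most `B` -/
def KB (κ : ℕ → ℕ → ℕ → ℝ) (B : ℝ) : Prop := ∀ a b, ∑ L ∈ Finset.range (a + b + 1), |κ a b L| ≤ B

theorem KB.nonneg {κ : ℕ → ℕ → ℕ → ℝ} {B : ℝ} (h : KB κ B) : 0 ≤ B :=
  (Finset.sum_nonneg fun _ _ => abs_nonneg _).trans (h 0 0)

section

variable {κ : ℕ → ℕ → ℕ → ℝ} {B : ℝ}

omit [NormedAlgebra ℝ A] in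
theorem summable_prod (f : W A w₁) (g : W A w₂) : Summable fun p : ℕ × ℕ => ‖sc f p.1‖ * ‖sc g p.2‖ :=
  (summable_norm f).mul_of_nonneg (summable_norm g) (fun _ => norm_nonneg _) fun _ => norm_nonneg _

theorem norm_term_le (hk : KB κ B) (f : W A w₁) (g : W A w₂) (p : ℕ × ℕ) :
    ‖(Mk κ p.1 p.2 (sc f p.1 * sc g p.2) : W A w₃)‖ ≤ B * (‖sc f p.1‖ * ‖sc g p.2‖) :=
  (norm_Mk_le (hk p.1 p.2) _).trans (mul_le_mul_of_nonneg_left (norm_mul_le _ _) hk.nonneg)

variable [CompleteSpace A]

theorem summable_term (hk : KB κ B) (f : W A w₁) (g : W A w₂) :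
    Summable fun p : ℕ × ℕ => (Mk κ p.1 p.2 (sc f p.1 * sc g p.2) : W A w₃) :=
  Summable.of_norm_bounded ((summable_prod f g).mul_left B) (norm_term_le hk f g)

/-- the bilinear operation with scaled coefficients `κ`, as a linear map -/
noncomputable def opL (w₁ w₂ w₃ : ℕ → ℝ) (hk : KB κ B) : W A w₁ →ₗ[ℝ] W A w₂ →ₗ[ℝ] W A w₃ :=
  LinearMap.mk₂ ℝ (fun f g => ∑' p : ℕ × ℕ, Mk κ p.1 p.2 (sc f p.1 * sc g p.2))
    (fun f f' g => by
      rw [← (summable_term hk f g).tsum_add (summable_term hk f' g)]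
      refine tsum_congr fun p => ?_
      rw [sc_add, add_mul, Mk_add])
    (fun t f g => by
      rw [← (summable_term hk f g).tsum_const_smul t]
      refine tsum_congr fun p => ?_
      rw [sc_smul, smul_mul_assoc, Mk_smul])
    (fun f g g' => by
      rw [← (summable_term hk f g).tsum_add (summable_term hk f g')]
      refine tsum_congr fun p => ?_
      rw [sc_add, mul_add, Mk_add])
    (fun t f g => by
      rw [← (summable_term hk f g).tsum_const_smul t]
      refine tsum_congr fun p => ?_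
      rw [sc_smul, mul_smul_comm, Mk_smul])

theorem opL_apply (hk : KB κ B) (f : W A w₁) (g : W A w₂) :
    opL w₁ w₂ w₃ hk f g = ∑' p : ℕ × ℕ, Mk κ p.1 p.2 (sc f p.1 * sc g p.2) := rfl

theorem norm_opL_le (hk : KB κ B) (f : W A w₁) (g : W A w₂) : ‖opL w₁ w₂ w₃ hk f g‖ ≤ B * ‖f‖ * ‖g‖ := by
  rw [opL_apply]
  have h1 := tsum_of_norm_bounded ((summable_prod f g).mul_left B).hasSum (norm_term_le (w₃ := w₃) hk f g)
  refine h1.trans (le_of_eq ?_)
  rw [tsum_mul_left, mul_assoc, norm_eq f, norm_eq g]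
  congr 1
  exact ((summable_norm f).tsum_mul_tsum (summable_norm g) (summable_prod f g)).symm

/-- the bilinear operation with scaled coefficients `κ` -/
noncomputable def op (w₁ w₂ w₃ : ℕ → ℝ) (hk : KB κ B) : W A w₁ →L[ℝ] W A w₂ →L[ℝ] W A w₃ :=
  LinearMap.mkContinuous₂ (opL w₁ w₂ w₃ hk) B (norm_opL_le hk)

theorem op_apply (hk : KB κ B) (f : W A w₁) (g : W A w₂) :
    op w₁ w₂ w₃ hk f g = ∑' p : ℕ × ℕ, Mk κ p.1 p.2 (sc f p.1 * sc g p.2) := rfl

theorem op_hasSum (hk : KB κ B) (f : W A w₁) (g : W A w₂) :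
    HasSum (fun p : ℕ × ℕ => (Mk κ p.1 p.2 (sc f p.1 * sc g p.2) : W A w₃)) (op w₁ w₂ w₃ hk f g) :=
  (summable_term hk f g).hasSum

theorem norm_op_le (hk : KB κ B) (f : W A w₁) (g : W A w₂) : ‖op w₁ w₂ w₃ hk f g‖ ≤ B * ‖f‖ * ‖g‖ :=
  norm_opL_le hk f g

theorem norm_op (hk : KB κ B) : ‖(op w₁ w₂ w₃ hk : W A w₁ →L[ℝ] W A w₂ →L[ℝ] W A w₃)‖ ≤ B :=
  LinearMap.mkContinuous₂_norm_le _ hk.nonneg _

theorem op_mono (hk : KB κ B) (a b : ℕ) (y z : A) :
    op w₁ w₂ w₃ hk (mono a y) (mono b z) = Mk κ a b (y * z) := by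
  rw [op_apply, tsum_eq_single (a, b)]
  · simp only [sc_mono, if_true]
  · intro p hp
    rw [sc_mono, sc_mono]
    by_cases h1 : p.1 = a
    · have h2 : p.2 ≠ b := fun h => hp (Prod.ext h1 h)
      rw [if_neg h2, mul_zero, Mk_zero]
    · rw [if_neg h1, zero_mul, Mk_zero]

/-- the scaled coefficients of the result: only the `κ a b L` with `L ≤ a + b` enter -/
theorem sc_op (hk : KB κ B) (f : W A w₁) (g : W A w₂) (L : ℕ) :
    sc (op w₁ w₂ w₃ hk f g) L = ∑' p : ℕ × ℕ, if L ≤ p.1 + p.2 then κ p.1 p.2 L • (sc f p.1 * sc g p.2) else 0 := by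
  have h := (op_hasSum (w₃ := w₃) hk f g).mapL (scL w₃ L)
  rw [← scL_apply, ← h.tsum_eq]
  refine tsum_congr fun p => ?_
  rw [scL_apply, sc_Mk]

omit [CompleteSpace A] in
/-- two operations are equal if they agree on the monomials -/
theorem bil_ext {E : Type*} [NormedAddCommGroup E] [NormedSpace ℝ E] {T T' : W A w₁ →L[ℝ] W A w₂ →L[ℝ] E}
    (h : ∀ a y b z, T (mono a y) (mono b z) = T' (mono a y) (mono b z)) : T = T' :=
  clm_ext fun a y => clm_ext fun b z => h a y b z

end

end Pool.Agent.H27.Leg
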