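import Pool.Agent.H27.Leg.Ring

/-!
# Evaluation of Legendre series

`evL`: the continuous linear map `f ↦ ∑ p n • co f n`, for numbers `p n` bounded by `C * w n`; `evL_op`: the value of a bilinear
operation. `gam`: the gradient product with coefficients `c a b L * T a b L`.
-/

open Polynomial

namespace Pool.Agent.H27.Leg

variable {A : Type} [NormedCommRing A] [NormedAlgebra ℝ A] {w w₁ w₂ w₃ : ℕ → ℝ}

/-! ### mode by mode operators -/

section

variable {A' : Type} [NormedCommRing A'] [NormedAlgebra ℝ A'] [CompleteSpace A']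

omit [CompleteSpace A'] in
/-- the bound of a functional acting on the coefficients -/
theorem summable_sum {D : ℕ → A →L[ℝ] A'} {C : ℝ} (hD : ∀ n, ‖D n‖ ≤ C * w n) (hw : ∀ n, 0 < w n) (f : W A w) :
    Summable fun n => ‖D n (co f n)‖ := by
  refine Summable.of_nonneg_of_le (fun n => norm_nonneg _) (fun n => ?_) ((hasSum_norm_co hw f).summable.mul_left C)
  calc ‖D n (co f n)‖ ≤ ‖D n‖ * ‖co f n‖ := (D n).le_opNorm _
    _ ≤ C * w n * ‖co f n‖ := mul_le_mul_of_nonneg_right (hD n) (norm_nonneg _)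
    _ = C * (w n * ‖co f n‖) := by ring

/-- the sum of the operators `D n`, applied to the coefficients -/
noncomputable def sumL (D : ℕ → A →L[ℝ] A') {C : ℝ} (hD : ∀ n, ‖D n‖ ≤ C * w n) (hw : ∀ n, 0 < w n) : W A w →L[ℝ] A' :=
  LinearMap.mkContinuous
    { toFun := fun f => ∑' n, D n (co f n)
      map_add' := fun f g => by
        rw [← (summable_sum hD hw f).of_norm.tsum_add (summable_sum hD hw g).of_norm]
        exact tsum_congr fun n => by rw [co_add, map_add]
      map_smul' := fun t f => by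
        rw [RingHom.id_apply, ← (summable_sum hD hw f).of_norm.tsum_const_smul t]
        exact tsum_congr fun n => by rw [co_smul, map_smul] } C (fun f => by
      have h1 := tsum_of_norm_bounded (f := fun n => D n (co f n)) ((hasSum_norm_co hw f).mul_left C) fun n => by
        calc ‖D n (co f n)‖ ≤ ‖D n‖ * ‖co f n‖ := (D n).le_opNorm _
          _ ≤ C * w n * ‖co f n‖ := mul_le_mul_of_nonneg_right (hD n) (norm_nonneg _)
          _ = C * (w n * ‖co f n‖) := by ring
      exact h1)

theorem sumL_apply {D : ℕ → A →L[ℝ] A'} {C : ℝ} (hD : ∀ n, ‖D n‖ ≤ C * w n) (hw : ∀ n, 0 < w n) (f : W A w) :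
    sumL D hD hw f = ∑' n, D n (co f n) := rfl

theorem sumL_hasSum {D : ℕ → A →L[ℝ] A'} {C : ℝ} (hD : ∀ n, ‖D n‖ ≤ C * w n) (hw : ∀ n, 0 < w n) (f : W A w) :
    HasSum (fun n => D n (co f n)) (sumL D hD hw f) := (summable_sum hD hw f).of_norm.hasSum

theorem norm_sumL_le {D : ℕ → A →L[ℝ] A'} {C : ℝ} (hD : ∀ n, ‖D n‖ ≤ C * w n) (hw : ∀ n, 0 < w n) (f : W A w) :
    ‖sumL D hD hw f‖ ≤ C * ‖f‖ := by
  have h1 := tsum_of_norm_bounded (f := fun n => D n (co f n)) ((hasSum_norm_co hw f).mul_left C) fun n => by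
    calc ‖D n (co f n)‖ ≤ ‖D n‖ * ‖co f n‖ := (D n).le_opNorm _
      _ ≤ C * w n * ‖co f n‖ := mul_le_mul_of_nonneg_right (hD n) (norm_nonneg _)
      _ = C * (w n * ‖co f n‖) := by ring
  exact h1

end

/-- the coefficients of a monomial -/
theorem co_mono (n m : ℕ) (y : A) : co (mono n y : W A w) m = if m = n then (w n)⁻¹ • y else 0 := by
  unfold co
  rw [sc_mono]
  by_cases h : m = n
  · subst h
    rw [if_pos rfl, if_pos rfl]
  · rw [if_neg h, if_neg h, smul_zero]

/-! ### evaluation -/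

section

variable {p q r : ℕ → ℝ} {C C₁ C₂ C₃ : ℝ}

/-- summability of the series -/
theorem summable_ev (hp : ∀ n, |p n| ≤ C * w n) (hw : ∀ n, 0 < w n) (f : W A w) : Summable fun n => ‖p n • co f n‖ := by
  refine Summable.of_nonneg_of_le (fun n => norm_nonneg _) (fun n => ?_) ((hasSum_norm_co hw f).summable.mul_left C)
  rw [norm_smul, Real.norm_eq_abs, ← mul_assoc]
  exact mul_le_mul_of_nonneg_right (hp n) (norm_nonneg _)

variable [CompleteSpace A]

/-- the value of a series -/
noncomputable def evL (p : ℕ → ℝ) (hp : ∀ n, |p n| ≤ C * w n) (hw : ∀ n, 0 < w n) : W A w →L[ℝ] A :=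
  LinearMap.mkContinuous
    { toFun := fun f => ∑' n, p n • co f n
      map_add' := fun f g => by
        rw [← (summable_ev hp hw f).of_norm.tsum_add (summable_ev hp hw g).of_norm]
        exact tsum_congr fun n => by rw [co_add, smul_add]
      map_smul' := fun t f => by
        rw [RingHom.id_apply, ← (summable_ev hp hw f).of_norm.tsum_const_smul t]
        exact tsum_congr fun n => by rw [co_smul, smul_comm] } C (fun f => by
      refine tsum_of_norm_bounded (f := fun n => p n • co f n) ((hasSum_norm_co hw f).mul_left C) fun n => ?_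
      rw [norm_smul, Real.norm_eq_abs, ← mul_assoc]
      exact mul_le_mul_of_nonneg_right (hp n) (norm_nonneg _))

theorem evL_apply (hp : ∀ n, |p n| ≤ C * w n) (hw : ∀ n, 0 < w n) (f : W A w) :
    evL p hp hw f = ∑' n, p n • co f n := rfl

theorem evL_hasSum (hp : ∀ n, |p n| ≤ C * w n) (hw : ∀ n, 0 < w n) (f : W A w) :
    HasSum (fun n => p n • co f n) (evL p hp hw f) := (summable_ev hp hw f).of_norm.hasSum

theorem norm_evL_le (hp : ∀ n, |p n| ≤ C * w n) (hw : ∀ n, 0 < w n) (f : W A w) : ‖evL p hp hw f‖ ≤ C * ‖f‖ := by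
  rw [evL_apply]
  refine tsum_of_norm_bounded (f := fun n => p n • co f n) ((hasSum_norm_co hw f).mul_left C) fun n => ?_
  rw [norm_smul, Real.norm_eq_abs, ← mul_assoc]
  exact mul_le_mul_of_nonneg_right (hp n) (norm_nonneg _)

theorem evL_mono (hp : ∀ n, |p n| ≤ C * w n) (hw : ∀ n, 0 < w n) (n : ℕ) (y : A) :
    evL p hp hw (mono n y) = (p n / w n) • y := by
  rw [evL_apply, tsum_eq_single n]
  · rw [co_mono, if_pos rfl, smul_smul, div_eq_mul_inv]
  · intro m hm
    rw [co_mono, if_neg hm, smul_zero]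

/-- the value of a bilinear operation -/
theorem evL_op {k : ℕ → ℕ → ℕ → ℝ} {B t : ℝ} (hk : KB (scl k w₁ w₂ w₃) B) (hw₁ : ∀ n, 0 < w₁ n) (hw₂ : ∀ n, 0 < w₂ n)
    (hw₃ : ∀ n, 0 < w₃ n) (hp : ∀ n, |p n| ≤ C₁ * w₁ n) (hq : ∀ n, |q n| ≤ C₂ * w₂ n) (hr : ∀ n, |r n| ≤ C₃ * w₃ n)
    (h : ∀ a b, ∑ L ∈ Finset.range (a + b + 1), k a b L * r L = t * (p a * q b)) (f : W A w₁) (g : W A w₂) :
    evL r hr hw₃ (op w₁ w₂ w₃ hk f g) = t • (evL p hp hw₁ f * evL q hq hw₂ g) := by
  have key : (ContinuousLinearMap.compL ℝ (W A w₂) (W A w₃) A (evL r hr hw₃)).comp (op w₁ w₂ w₃ hk) =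
      t • (((ContinuousLinearMap.compL ℝ (W A w₂) A A).flip (evL q hq hw₂)).comp
        ((ContinuousLinearMap.mul ℝ A).comp (evL p hp hw₁))) := by
    refine bil_ext fun a y b z => ?_
    have e1 : (ContinuousLinearMap.compL ℝ (W A w₂) (W A w₃) A (evL r hr hw₃)).comp (op w₁ w₂ w₃ hk) (mono a y) (mono b z) =
        evL r hr hw₃ (op w₁ w₂ w₃ hk (mono a y) (mono b z)) := rfl
    have e2 : (t • (((ContinuousLinearMap.compL ℝ (W A w₂) A A).flip (evL q hq hw₂)).comp
        ((ContinuousLinearMap.mul ℝ A).comp (evL p hp hw₁)))) (mono a y) (mono b z) =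
        t • (evL p hp hw₁ (mono a y) * evL q hq hw₂ (mono b z)) := rfl
    rw [e1, e2, op_mono, evL_mono, evL_mono]
    unfold Mk
    rw [map_sum]
    have h1 : ∀ L ∈ Finset.range (a + b + 1), evL r hr hw₃ (mono L (scl k w₁ w₂ w₃ a b L • (y * z))) =
        (k a b L * r L) • ((w₁ a * w₂ b)⁻¹ • (y * z)) := by
      intro L _
      rw [evL_mono, smul_smul, smul_smul]
      congr 1
      unfold scl
      have := (hw₃ L).ne'
      have := (hw₁ a).ne'
      have := (hw₂ b).ne'
      field_simp
    rw [Finset.sum_congr rfl h1, ← Finset.sum_smul, h, smul_mul_smul_comm, smul_smul, smul_smul]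
    congr 1
    have := (hw₁ a).ne'
    have := (hw₂ b).ne'
    field_simp
  have h2 := congrArg (fun T : W A w₁ →L[ℝ] W A w₂ →L[ℝ] A => T f g) key
  exact h2

/-- the value of a product -/
theorem evL_mul [hw : Fact (Wt w)] (hp : ∀ n, |p n| ≤ C * w n)
    (h : ∀ a b, ∑ L ∈ Finset.range (a + b + 1), c a b L * p L = p a * p b) (f g : W A w) :
    evL p hp hw.out.pos (f * g) = evL p hp hw.out.pos f * evL p hp hw.out.pos g := by
  have h1 := evL_op (t := 1) (kb_cw hw.out) hw.out.pos hw.out.pos hw.out.pos hp hp hp (fun a b => by rw [h, one_mul]) f g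
  rw [one_smul] at h1
  exact h1

theorem evL_one [hw : Fact (Wt w)] (hp : ∀ n, |p n| ≤ C * w n) (h0 : p 0 = 1) :
    evL p hp hw.out.pos (1 : W A w) = 1 := by
  rw [one_def, evL_mono, h0, hw.out.zero, div_one, one_smul]

end

/-- multiplication with a constant series -/
theorem sc_mono_zero_mul [CompleteSpace A] [hw : Fact (Wt w)] (a : A) (f : W A w) (n : ℕ) :
    sc (mono 0 a * f) n = a * sc f n := by
  have h : (scL w n).comp (mulW w (mono 0 a)) = (ContinuousLinearMap.mul ℝ A a).comp (scL w n) := by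
    refine clm_ext fun m y => ?_
    have e1 : ((scL w n).comp (mulW w (mono 0 a))) (mono m y) = sc (mulW w (mono 0 a) (mono m y)) n := rfl
    have e2 : ((ContinuousLinearMap.mul ℝ A a).comp (scL w n)) (mono m y) = a * sc (mono m y : W A w) n := rfl
    rw [e1, e2, mulW_mono, sc_Mk, cw_zero hw.out, sc_mono]
    by_cases h1 : n = m
    · rw [if_pos h1, if_pos (by omega), if_pos h1, one_smul]
    · rw [if_neg h1, if_neg h1, zero_smul, mul_zero, ite_self]
  have h2 := congrArg (fun S : W A w →L[ℝ] A => S f) h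
  exact h2

theorem co_mono_zero_mul [CompleteSpace A] [hw : Fact (Wt w)] (a : A) (f : W A w) (n : ℕ) :
    co (mono 0 a * f) n = a * co f n := by
  unfold co
  rw [sc_mono_zero_mul, mul_smul_comm]

/-- the constant series, as an algebra homomorphism -/
noncomputable def iota (A : Type) [NormedCommRing A] [NormedAlgebra ℝ A] [CompleteSpace A] (w : ℕ → ℝ) [hw : Fact (Wt w)] :
    A →ₐ[ℝ] W A w where
  toFun a := mono 0 a
  map_one' := rfl
  map_mul' a b := by
    refine W.ext fun n => ?_
    rw [sc_mono_zero_mul, sc_mono, sc_mono, mul_ite, mul_zero]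
  map_zero' := mono_zero 0
  map_add' a b := mono_add 0 a b
  commutes' t := by
    rw [Algebra.algebraMap_eq_smul_one, Algebra.algebraMap_eq_smul_one, mono_smul]
    rfl

section

variable [CompleteSpace A] [hw : Fact (Wt w)]

theorem iota_apply (a : A) : iota A w a = mono 0 a := rfl

theorem norm_iota (a : A) : ‖iota A w a‖ = ‖a‖ := norm_mono 0 a

theorem sc_iota_mul (a : A) (f : W A w) (n : ℕ) : sc (iota A w a * f) n = a * sc f n := sc_mono_zero_mul a f n

theorem co_iota_mul (a : A) (f : W A w) (n : ℕ) : co (iota A w a * f) n = a * co f n := co_mono_zero_mul a f n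

theorem iota_mem_evn (a : A) : iota A w a ∈ evnAlg A w := mono_mem_evn rfl a

theorem evL_iota {p : ℕ → ℝ} {C : ℝ} (hp : ∀ n, |p n| ≤ C * w n) (h0 : p 0 = 1) (a : A) :
    evL p hp hw.out.pos (iota A w a) = a := by
  rw [iota_apply, evL_mono, h0, hw.out.zero, div_one, one_smul]

/-- the value at a character of the Legendre algebra -/
noncomputable def evA (p : ℕ → ℝ) {C : ℝ} (hp : ∀ n, |p n| ≤ C * w n) (h0 : p 0 = 1)
    (h : ∀ a b, ∑ L ∈ Finset.range (a + b + 1), c a b L * p L = p a * p b) : W A w →ₐ[ℝ] A where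
  toFun f := evL p hp hw.out.pos f
  map_one' := evL_one hp h0
  map_mul' f g := evL_mul hp h f g
  map_zero' := map_zero _
  map_add' f g := map_add _ f g
  commutes' t := by
    rw [Algebra.algebraMap_eq_smul_one, Algebra.algebraMap_eq_smul_one, map_smul, evL_one hp h0]

end

/-! ### values at a point -/

/-- the products of the values at `x` -/
theorem sum_c_eval (x : ℝ) (a b : ℕ) :
    ∑ L ∈ Finset.range (a + b + 1), c a b L * (P L).eval x = (P a).eval x * (P b).eval x :=
  (P_mul_eval a b (a + b + 1) le_rfl x).symm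

/-- the coefficients of the gradient product -/
noncomputable def ct (a b L : ℕ) : ℝ := c a b L * T a b L

theorem ct_symm (a b L : ℕ) : ct a b L = ct b a L := by
  unfold ct
  rw [c_symm, T_symm]

theorem ct_even {a b L : ℕ} (ha : a % 2 = 0) (hb : b % 2 = 0) (hL : L % 2 = 1) : ct a b L = 0 := by
  unfold ct
  rw [c_even ha hb hL, zero_mul]

/-- the gradient products of the values at `x` -/
theorem sum_ct_eval (x : ℝ) (a b : ℕ) :
    ∑ L ∈ Finset.range (a + b + 1), ct a b L * (P L).eval x =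
      (1 - x ^ 2) * ((derivative (P a)).eval x * (derivative (P b)).eval x) := by
  have h := grad_mul_eval a b (a + b + 1) le_rfl x
  unfold ct
  linarith

end Pool.Agent.H27.Leg
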