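import Pool.Agent.H27.Leg.Ev

/-!
# The gradient product, operators mode by mode, values in `ℝ`

`gam`: the bilinear operation with coefficients `ct = c * T`; its value at `x` is `(1 - x ^ 2)` times the product of the two series with
`P n'`. `diag`: operators acting on each coefficient. `C(K, ℝ)`-valued series and their values.
-/

open Polynomial

namespace Pool.Agent.H27.Leg

variable {w w₁ w₂ w₃ : ℕ → ℝ}

/-- the bound of the gradient product -/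
theorem kb_ct {B : ℝ} (h₁ : ∀ n, 0 < w₁ n) (h₂ : ∀ n, 0 < w₂ n) (h₃ : ∀ n, 0 < w₃ n)
    (h : ∀ a b L, L ≤ a + b → w₃ L * Real.sqrt (lam a * lam b) ≤ B * (w₁ a * w₂ b)) :
    KB (scl ct w₁ w₂ w₃) (B / Real.sqrt 2) := by
  have hB : 0 ≤ B := by
    have h1 := h 0 0 0 le_rfl
    rw [lam_zero, zero_mul, Real.sqrt_zero, mul_zero] at h1
    exact nonneg_of_mul_nonneg_left h1 (mul_pos (h₁ 0) (h₂ 0))
  have h2 : (0 : ℝ) < Real.sqrt 2 := Real.sqrt_pos.2 two_pos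
  intro a b
  have hs : ∑ L ∈ Finset.range (a + b + 1), |c a b L * T a b L| ≤ Real.sqrt (lam a * lam b) / Real.sqrt 2 := by
    have h3 := cT_abs_sum_le a b (a + b + 1) le_rfl
    rw [Real.sqrt_mul (lam_nonneg a)]
    refine le_trans (le_of_eq (Finset.sum_congr rfl fun L _ => ?_)) h3
    rw [abs_mul, abs_of_nonneg (c_nonneg a b L)]
  have pa := h₁ a
  have pb := h₂ b
  rcases (mul_nonneg (lam_nonneg a) (lam_nonneg b)).eq_or_lt with h0 | h0
  · rw [← h0] at hs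
    rw [Real.sqrt_zero, zero_div] at hs
    have h4 : ∀ L ∈ Finset.range (a + b + 1), |c a b L * T a b L| = 0 := by
      refine (Finset.sum_eq_zero_iff_of_nonneg fun L _ => abs_nonneg _).1 (le_antisymm hs (Finset.sum_nonneg fun L _ => abs_nonneg _))
    have h5 : ∀ L ∈ Finset.range (a + b + 1), |scl ct w₁ w₂ w₃ a b L| = 0 := by
      intro L hL
      have h6 : c a b L * T a b L = 0 := abs_eq_zero.1 (h4 L hL)
      unfold scl ct
      rw [h6]
      simp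
    rw [Finset.sum_eq_zero h5]
    positivity
  · have hq : 0 < Real.sqrt (lam a * lam b) := Real.sqrt_pos.2 h0
    have h6 : ∀ L ∈ Finset.range (a + b + 1), |scl ct w₁ w₂ w₃ a b L| ≤
        |c a b L * T a b L| * (B / Real.sqrt (lam a * lam b)) := by
      intro L hL
      rw [Finset.mem_range] at hL
      have p3 := h₃ L
      unfold scl ct
      rw [mul_div_assoc, abs_mul]
      refine mul_le_mul_of_nonneg_left ?_ (abs_nonneg _)
      rw [abs_of_nonneg (by positivity), div_le_div_iff₀ (by positivity) hq]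
      exact h a b L (by omega)
    refine (Finset.sum_le_sum h6).trans ?_
    rw [← Finset.sum_mul]
    have h7 : 0 ≤ B / Real.sqrt (lam a * lam b) := by positivity
    refine (mul_le_mul_of_nonneg_right hs h7).trans (le_of_eq ?_)
    field_simp

/-- a bound of the derivatives by a larger power -/
theorem exists_der_bound {q Q x : ℝ} (hq : 1 ≤ q) (hQ : q < Q) (hx : 2 * |x| ≤ q + 1 / q) :
    ∃ C : ℝ, 0 ≤ C ∧ ∀ n, |(derivative (P n)).eval x| ≤ C * Q ^ n := by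
  have hq0 : 0 < q := by linarith
  have hQ0 : 0 < Q := by linarith
  have hr : ‖q / Q‖ < 1 := by
    rw [Real.norm_eq_abs, abs_of_nonneg (by positivity), div_lt_one hQ0]
    exact hQ
  have h2 := (summable_pow_mul_geometric_of_norm_lt_one 2 hr)
  have h1 := (summable_pow_mul_geometric_of_norm_lt_one 1 hr)
  obtain ⟨C, hC⟩ := (h2.add h1).tendsto_atTop_zero.bddAbove_range
  have hC0 : 0 ≤ C := by
    have := hC ⟨0, rfl⟩
    simpa using this
  refine ⟨C, hC0, fun n => (abs_der_le n hq hx).trans ?_⟩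
  have h3 := hC ⟨n, rfl⟩
  simp only at h3
  have h4 : (0 : ℝ) ≤ n := Nat.cast_nonneg n
  have h5 : ((n : ℝ) * ((n : ℝ) + 1)) * q ^ n = ((n : ℝ) ^ 2 * (q / Q) ^ n + (n : ℝ) ^ 1 * (q / Q) ^ n) * Q ^ n := by
    rw [div_pow]
    field_simp
  have h6 : (n : ℝ) * ((n : ℝ) + 1) / 2 * q ^ n ≤ (n : ℝ) * ((n : ℝ) + 1) * q ^ n := by
    have : 0 ≤ (n : ℝ) * ((n : ℝ) + 1) * q ^ n := by positivity
    linarith
  refine h6.trans ?_
  rw [h5]
  exact mul_le_mul_of_nonneg_right h3 (by positivity)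

variable {A : Type} [NormedCommRing A] [NormedAlgebra ℝ A] [CompleteSpace A]

section

variable {B C₁ C₂ C₃ : ℝ}

/-- the gradient product -/
noncomputable def gam (w₁ w₂ w₃ : ℕ → ℝ) {B : ℝ} (hk : KB (scl ct w₁ w₂ w₃) B) : W A w₁ →L[ℝ] W A w₂ →L[ℝ] W A w₃ :=
  op w₁ w₂ w₃ hk

theorem norm_gam_le (hk : KB (scl ct w₁ w₂ w₃) B) (f : W A w₁) (g : W A w₂) :
    ‖gam w₁ w₂ w₃ hk f g‖ ≤ B * ‖f‖ * ‖g‖ := norm_op_le hk f g

theorem gam_mem_evn (hk : KB (scl ct w₁ w₂ w₃) B) {f : W A w₁} {g : W A w₂} (hf : f ∈ evn A w₁) (hg : g ∈ evn A w₂) :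
    gam w₁ w₂ w₃ hk f g ∈ evn A w₃ :=
  op_mem_evn hk (fun a b L ha hb hL => by
    unfold scl
    rw [ct_even ha hb hL]
    simp) hf hg

/-- the value of the gradient product at `x` -/
theorem evL_gam (hk : KB (scl ct w₁ w₂ w₃) B) (hw₁ : ∀ n, 0 < w₁ n) (hw₂ : ∀ n, 0 < w₂ n) (hw₃ : ∀ n, 0 < w₃ n) (x : ℝ)
    (hp : ∀ n, |(derivative (P n)).eval x| ≤ C₁ * w₁ n) (hq : ∀ n, |(derivative (P n)).eval x| ≤ C₂ * w₂ n)
    (hr : ∀ n, |(P n).eval x| ≤ C₃ * w₃ n) (f : W A w₁) (g : W A w₂) :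
    evL (fun n => (P n).eval x) hr hw₃ (gam w₁ w₂ w₃ hk f g) =
      (1 - x ^ 2) • (evL (fun n => (derivative (P n)).eval x) hp hw₁ f * evL (fun n => (derivative (P n)).eval x) hq hw₂ g) :=
  evL_op hk hw₁ hw₂ hw₃ hp hq hr (fun a b => sum_ct_eval x a b) f g

/-- products between different weights: the value at `x` -/
theorem evL_op_c (hk : KB (scl c w₁ w₂ w₃) B) (hw₁ : ∀ n, 0 < w₁ n) (hw₂ : ∀ n, 0 < w₂ n) (hw₃ : ∀ n, 0 < w₃ n) (x : ℝ)
    (hp : ∀ n, |(P n).eval x| ≤ C₁ * w₁ n) (hq : ∀ n, |(P n).eval x| ≤ C₂ * w₂ n)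
    (hr : ∀ n, |(P n).eval x| ≤ C₃ * w₃ n) (f : W A w₁) (g : W A w₂) :
    evL (fun n => (P n).eval x) hr hw₃ (op w₁ w₂ w₃ hk f g) =
      evL (fun n => (P n).eval x) hp hw₁ f * evL (fun n => (P n).eval x) hq hw₂ g := by
  have h := evL_op (t := 1) hk hw₁ hw₂ hw₃ hp hq hr (fun a b => by rw [sum_c_eval, one_mul]) f g
  rwa [one_smul] at h

end

/-! ### operators mode by mode -/

section

variable {A' : Type} [NormedCommRing A'] [NormedAlgebra ℝ A'] {C : ℝ}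

omit [CompleteSpace A] in
theorem diag_aux {D : ℕ → A →L[ℝ] A'} (hD : ∀ n, w₂ n * ‖D n‖ ≤ C * w₁ n) (h₂ : ∀ n, 0 < w₂ n)
    (f : W A w₁) (n : ℕ) : ‖w₂ n • D n (co f n)‖ ≤ C * (w₁ n * ‖co f n‖) := by
  rw [norm_smul, Real.norm_eq_abs, abs_of_pos (h₂ n)]
  calc w₂ n * ‖D n (co f n)‖ ≤ w₂ n * (‖D n‖ * ‖co f n‖) := mul_le_mul_of_nonneg_left ((D n).le_opNorm _) (h₂ n).le
    _ = w₂ n * ‖D n‖ * ‖co f n‖ := by ring
    _ ≤ C * w₁ n * ‖co f n‖ := mul_le_mul_of_nonneg_right (hD n) (norm_nonneg _)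
    _ = C * (w₁ n * ‖co f n‖) := by ring

omit [CompleteSpace A] in
theorem diag_summable {D : ℕ → A →L[ℝ] A'} (hD : ∀ n, w₂ n * ‖D n‖ ≤ C * w₁ n) (h₁ : ∀ n, 0 < w₁ n) (h₂ : ∀ n, 0 < w₂ n)
    (f : W A w₁) : Summable fun n => ‖w₂ n • D n (co f n)‖ :=
  Summable.of_nonneg_of_le (fun _ => norm_nonneg _) (diag_aux hD h₂ f) ((hasSum_norm_co h₁ f).summable.mul_left C)

omit [CompleteSpace A] in
theorem diag_bound {D : ℕ → A →L[ℝ] A'} (hD : ∀ n, w₂ n * ‖D n‖ ≤ C * w₁ n) (h₁ : ∀ n, 0 < w₁ n) (h₂ : ∀ n, 0 < w₂ n)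
    (f : W A w₁) : ‖(mk (fun n => w₂ n • D n (co f n)) (diag_summable hD h₁ h₂ f) : W A' w₂)‖ ≤ C * ‖f‖ := by
  rw [norm_mk]
  have h1 := (diag_summable hD h₁ h₂ f).tsum_le_tsum (diag_aux hD h₂ f) ((hasSum_norm_co h₁ f).summable.mul_left C)
  rwa [tsum_mul_left, (hasSum_norm_co h₁ f).tsum_eq] at h1

/-- the operator which maps the coefficient of `P n` by `D n` -/
noncomputable def diag (w₁ w₂ : ℕ → ℝ) (D : ℕ → A →L[ℝ] A') {C : ℝ} (hD : ∀ n, w₂ n * ‖D n‖ ≤ C * w₁ n) (h₁ : ∀ n, 0 < w₁ n)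
    (h₂ : ∀ n, 0 < w₂ n) : W A w₁ →L[ℝ] W A' w₂ :=
  LinearMap.mkContinuous
    { toFun := fun f => mk (fun n => w₂ n • D n (co f n)) (diag_summable hD h₁ h₂ f)
      map_add' := fun f g => by
        refine W.ext fun n => ?_
        rw [sc_add, sc_mk, sc_mk, sc_mk, co_add, map_add, smul_add]
      map_smul' := fun t f => by
        refine W.ext fun n => ?_
        rw [RingHom.id_apply, sc_smul, sc_mk, sc_mk, co_smul, map_smul, smul_comm] } C (diag_bound hD h₁ h₂)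

omit [CompleteSpace A] in
theorem co_diag {D : ℕ → A →L[ℝ] A'} (hD : ∀ n, w₂ n * ‖D n‖ ≤ C * w₁ n) (h₁ : ∀ n, 0 < w₁ n) (h₂ : ∀ n, 0 < w₂ n)
    (f : W A w₁) (n : ℕ) : co (diag w₁ w₂ D hD h₁ h₂ f) n = D n (co f n) := by
  have h : sc (diag w₁ w₂ D hD h₁ h₂ f) n = w₂ n • D n (co f n) := rfl
  unfold co
  rw [h, smul_smul, inv_mul_cancel₀ (h₂ n).ne', one_smul]
  rfl

omit [CompleteSpace A] in
theorem norm_diag_le {D : ℕ → A →L[ℝ] A'} (hD : ∀ n, w₂ n * ‖D n‖ ≤ C * w₁ n) (h₁ : ∀ n, 0 < w₁ n) (h₂ : ∀ n, 0 < w₂ n)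
    (f : W A w₁) : ‖diag w₁ w₂ D hD h₁ h₂ f‖ ≤ C * ‖f‖ := diag_bound hD h₁ h₂ f

omit [CompleteSpace A] in
theorem diag_mem_evn {D : ℕ → A →L[ℝ] A'} (hD : ∀ n, w₂ n * ‖D n‖ ≤ C * w₁ n) (h₁ : ∀ n, 0 < w₁ n) (h₂ : ∀ n, 0 < w₂ n)
    {f : W A w₁} (hf : f ∈ evn A w₁) : diag w₁ w₂ D hD h₁ h₂ f ∈ evn A' w₂ := by
  intro n hn
  have h : sc (diag w₁ w₂ D hD h₁ h₂ f) n = w₂ n • D n (co f n) := rfl
  have h2 : co f n = 0 := by
    unfold co
    rw [hf n hn, smul_zero]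
  rw [h, h2, map_zero, smul_zero]

end

/-! ### series whose coefficients are functions -/

section

variable {K : Type} [TopologicalSpace K] [CompactSpace K] {p : ℕ → ℝ} {C : ℝ}

/-- the value of a series of functions at a point -/
theorem evL_point (hp : ∀ n, |p n| ≤ C * w n) (hw : ∀ n, 0 < w n) (f : W C(K, ℝ) w) (s : K) :
    HasSum (fun n => co f n s * p n) (evL p hp hw f s) := by
  have h := (evL_hasSum hp hw f).mapL (ContinuousMap.evalCLM ℝ s)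
  have e : (fun n => (ContinuousMap.evalCLM ℝ s) (p n • co f n)) = fun n => co f n s * p n := by
    funext n
    rw [map_smul]
    exact mul_comm _ _
  rw [e] at h
  exact h

theorem evL_point_eq (hp : ∀ n, |p n| ≤ C * w n) (hw : ∀ n, 0 < w n) (f : W C(K, ℝ) w) (s : K) :
    evL p hp hw f s = ∑' n, co f n s * p n := (evL_point hp hw f s).tsum_eq.symm

theorem abs_evL_point_le (hp : ∀ n, |p n| ≤ C * w n) (hw : ∀ n, 0 < w n) (f : W C(K, ℝ) w) (s : K) :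
    |evL p hp hw f s| ≤ C * ‖f‖ :=
  ((evL p hp hw f).norm_coe_le_norm s).trans (norm_evL_le hp hw f)

theorem abs_co_point_le (f : W C(K, ℝ) w) (n : ℕ) (s : K) : |co f n s| ≤ ‖co f n‖ :=
  (co f n).norm_coe_le_norm s

end

end Pool.Agent.H27.Leg
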