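import Pool.Agent.H27.Leg.Adams

/-!
# Products of gradients of Legendre polynomials

`(1 - x ^ 2) P' a P' b = ∑ c a b L * T a b L * P L` with `T a b L = (a (a + 1) + b (b + 1) - L (L + 1)) / 2`; mean and variance of `T`
for the distribution `c a b`.
-/

open Polynomial

namespace Pool.Agent.H27.Leg

/-- the eigenvalue `n (n + 1)` -/
noncomputable def lam (n : ℕ) : ℝ := (n : ℝ) * ((n : ℝ) + 1)

theorem lam_nonneg (n : ℕ) : 0 ≤ lam n := by
  unfold lam
  positivity

theorem lam_zero : lam 0 = 0 := by
  unfold lam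
  simp

theorem lam_pos {n : ℕ} (h : n ≠ 0) : 0 < lam n := by
  unfold lam
  have : (0 : ℝ) < n := Nat.cast_pos.2 (Nat.pos_of_ne_zero h)
  positivity

/-- the factor in the product of gradients -/
noncomputable def T (a b L : ℕ) : ℝ := (lam a + lam b - lam L) / 2

theorem T_symm (a b L : ℕ) : T a b L = T b a L := by
  unfold T
  ring

theorem grad_mul (a b N : ℕ) (h : a + b + 1 ≤ N) :
    (1 - X ^ 2) * (derivative (P a) * derivative (P b)) = ∑ L ∈ Finset.range N, C (c a b L * T a b L) * P L := by
  have h1 : derivative ((1 - X ^ 2) * derivative (P a * P b)) =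
      P b * derivative ((1 - X ^ 2) * derivative (P a)) + P a * derivative ((1 - X ^ 2) * derivative (P b)) +
        2 * ((1 - X ^ 2) * (derivative (P a) * derivative (P b))) := by
    simp only [derivative_mul, derivative_add]
    ring
  have h2 : derivative ((1 - X ^ 2) * derivative (P a * P b)) =
      ∑ L ∈ Finset.range N, -(C (c a b L * lam L) * P L) := by
    rw [P_mul' a b N h, derivative_sum, Finset.mul_sum, derivative_sum]
    refine Finset.sum_congr rfl fun L _ => ?_
    have e : (1 - X ^ 2) * derivative (C (c a b L) * P L) = C (c a b L) * ((1 - X ^ 2) * derivative (P L)) := by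
      rw [derivative_C_mul]
      ring
    have e3 : C (c a b L * lam L) = C (c a b L) * C ((L : ℝ) * ((L : ℝ) + 1)) := by
      rw [← C_mul]
      rfl
    rw [e, derivative_C_mul, ode, e3]
    ring
  have h3 : (2 : ℝ[X]) * ((1 - X ^ 2) * (derivative (P a) * derivative (P b))) =
      2 * ∑ L ∈ Finset.range N, C (c a b L * T a b L) * P L := by
    have h4 : (2 : ℝ[X]) * ((1 - X ^ 2) * (derivative (P a) * derivative (P b))) =
        ∑ L ∈ Finset.range N, -(C (c a b L * lam L) * P L) + C (lam a + lam b) * (P a * P b) := by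
      rw [← h2, h1, ode, ode, C_add]
      unfold lam
      ring
    rw [h4, P_mul' a b N h, Finset.mul_sum, Finset.mul_sum, ← Finset.sum_add_distrib]
    refine Finset.sum_congr rfl fun L _ => ?_
    have e2 : (2 : ℝ[X]) = C (2 : ℝ) := by rw [map_ofNat]
    rw [e2, ← mul_assoc, ← mul_assoc, ← C_mul, ← C_mul, ← neg_mul, ← C_neg, ← add_mul, ← C_add]
    congr 2
    unfold T
    ring
  exact mul_left_cancel₀ two_ne_zero h3

theorem grad_mul_eval (a b N : ℕ) (h : a + b + 1 ≤ N) (x : ℝ) :
    (1 - x ^ 2) * ((derivative (P a)).eval x * (derivative (P b)).eval x) =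
      ∑ L ∈ Finset.range N, c a b L * T a b L * (P L).eval x := by
  have h1 := congrArg (eval x) (grad_mul a b N h)
  rw [eval_finsetSum] at h1
  simpa only [eval_mul, eval_sub, eval_one, eval_pow, eval_X, eval_C] using h1

/-- the mean of `T` is zero -/
theorem cT_sum (a b N : ℕ) (h : a + b + 1 ≤ N) : ∑ L ∈ Finset.range N, c a b L * T a b L = 0 := by
  have h1 := grad_mul_eval a b N h 1
  simp only [eval_one', mul_one, one_pow, sub_self, zero_mul] at h1
  exact h1.symm

/-- the variance of `T` -/
theorem cT_sq_sum (a b N : ℕ) (h : a + b + 1 ≤ N) :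
    ∑ L ∈ Finset.range N, c a b L * T a b L ^ 2 = lam a * lam b / 2 := by
  have h1 := congrArg (fun p => (derivative p).eval 1) (grad_mul a b N h)
  have h2 : (derivative ((1 - X ^ 2) * (derivative (P a) * derivative (P b)))).eval 1 = - (lam a * lam b / 2) := by
    simp only [derivative_mul, derivative_sub, derivative_one, derivative_X_pow, eval_add, eval_mul, eval_sub, eval_one,
      eval_pow, eval_X, der_one, eval_C, eval_zero]
    unfold lam
    norm_num
    ring
  have h3 : (derivative (∑ L ∈ Finset.range N, C (c a b L * T a b L) * P L)).eval 1 =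
      ∑ L ∈ Finset.range N, c a b L * T a b L * (lam L / 2) := by
    rw [derivative_sum, eval_finsetSum]
    refine Finset.sum_congr rfl fun L _ => ?_
    rw [derivative_C_mul, eval_mul, eval_C, der_one]
    rfl
  have h4 : ∑ L ∈ Finset.range N, c a b L * T a b L * (lam L / 2) = - (lam a * lam b / 2) := by
    rw [← h3, ← h2]
    exact h1.symm
  have h5 := cT_sum a b N h
  have h6 : ∑ L ∈ Finset.range N, c a b L * T a b L ^ 2 =
      (lam a + lam b) / 2 * ∑ L ∈ Finset.range N, c a b L * T a b L -
        ∑ L ∈ Finset.range N, c a b L * T a b L * (lam L / 2) := by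
    rw [Finset.mul_sum, ← Finset.sum_sub_distrib]
    refine Finset.sum_congr rfl fun L _ => ?_
    unfold T
    ring
  rw [h6, h5, h4]
  ring

/-- the mean of `|T|` -/
theorem cT_abs_sum (a b N : ℕ) (h : a + b + 1 ≤ N) :
    ∑ L ∈ Finset.range N, c a b L * |T a b L| ≤ √(lam a * lam b / 2) := by
  refine Real.le_sqrt_of_sq_le ?_
  have h1 := Finset.sum_mul_sq_le_sq_mul_sq (Finset.range N) (fun L => √(c a b L)) (fun L => √(c a b L) * |T a b L|)
  have h2 : ∀ L, √(c a b L) * (√(c a b L) * |T a b L|) = c a b L * |T a b L| := fun L => by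
    rw [← mul_assoc, Real.mul_self_sqrt (c_nonneg a b L)]
  have h3 : ∀ L, √(c a b L) ^ 2 = c a b L := fun L => Real.sq_sqrt (c_nonneg a b L)
  have h4 : ∀ L, (√(c a b L) * |T a b L|) ^ 2 = c a b L * T a b L ^ 2 := fun L => by
    rw [mul_pow, h3, sq_abs]
  simp only [h2, h3, h4] at h1
  rwa [c_sum a b N h, cT_sq_sum a b N h, one_mul] at h1

/-- a weighted form -/
theorem cT_abs_sum_le (a b N : ℕ) (h : a + b + 1 ≤ N) :
    ∑ L ∈ Finset.range N, c a b L * |T a b L| ≤ √(lam a) * √(lam b) / √2 := by
  refine (cT_abs_sum a b N h).trans (le_of_eq ?_)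
  rw [Real.sqrt_div (mul_nonneg (lam_nonneg a) (lam_nonneg b)), Real.sqrt_mul (lam_nonneg a)]

end Pool.Agent.H27.Leg
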