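import Mathlib

/-!
# Legendre polynomials: recurrence, derivatives, differential equation

`P n` is the Legendre polynomial, as a real polynomial.
-/

open Polynomial

namespace Pool.Agent.H27.Leg

/-- the Legendre polynomials -/
noncomputable def P : ℕ → ℝ[X]
  | 0 => 1
  | 1 => X
  | n + 2 => C (1 / ((n : ℝ) + 2)) * (C (2 * (n : ℝ) + 3) * X * P (n + 1) - C ((n : ℝ) + 1) * P n)

theorem P_zero : P 0 = 1 := by rw [P]

theorem P_one : P 1 = X := by rw [P]

theorem P_rec (n : ℕ) :
    C ((n : ℝ) + 2) * P (n + 2) = C (2 * (n : ℝ) + 3) * X * P (n + 1) - C ((n : ℝ) + 1) * P n := by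
  rw [P, ← mul_assoc, ← C_mul, mul_one_div_cancel (by positivity), C_1, one_mul]

/-- the recurrence for the values -/
theorem rec_eval (n : ℕ) (x : ℝ) :
    ((n : ℝ) + 2) * (P (n + 2)).eval x =
      (2 * (n : ℝ) + 3) * x * (P (n + 1)).eval x - ((n : ℝ) + 1) * (P n).eval x := by
  have h := congrArg (eval x) (P_rec n)
  simpa only [eval_mul, eval_sub, eval_C, eval_X] using h

/-- `P' (n + 1) = x P' n + (n + 1) P n` and `x P' (n + 1) = P' n + (n + 1) P (n + 1)` -/
theorem der_AB (n : ℕ) :
    derivative (P (n + 1)) = X * derivative (P n) + C ((n : ℝ) + 1) * P n ∧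
      X * derivative (P (n + 1)) = derivative (P n) + C ((n : ℝ) + 1) * P (n + 1) := by
  induction n with
  | zero =>
    rw [zero_add, P_one, P_zero]
    simp
  | succ n ih =>
    obtain ⟨hA, hB⟩ := ih
    have h1 : C ((n : ℝ) + 2) * derivative (P (n + 2)) =
        C (2 * (n : ℝ) + 3) * (P (n + 1) + X * derivative (P (n + 1))) - C ((n : ℝ) + 1) * derivative (P n) := by
      have h := congrArg derivative (P_rec n)
      simp only [derivative_mul, derivative_sub, derivative_C, derivative_X, zero_mul, zero_add, mul_one] at h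
      rw [h]
      ring
    have h2 : C ((n : ℝ) + 2) * (derivative (P (n + 2)) - (X * derivative (P (n + 1)) + C ((n : ℝ) + 2) * P (n + 1))) = 0 := by
      have e1 : (C (2 * (n : ℝ) + 3) : ℝ[X]) = 2 * C (n : ℝ) + 3 := by rw [C_add, C_mul, map_ofNat, map_ofNat]
      have e2 : (C ((n : ℝ) + 1) : ℝ[X]) = C (n : ℝ) + 1 := by simp
      have e3 : (C ((n : ℝ) + 2) : ℝ[X]) = C (n : ℝ) + 2 := by rw [C_add, map_ofNat]
      rw [e2] at hB
      rw [e1, e2, e3] at h1
      rw [e3]
      linear_combination h1 + (C (n : ℝ) + 1) * hB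
    have h3 : derivative (P (n + 2)) = X * derivative (P (n + 1)) + C ((n : ℝ) + 2) * P (n + 1) := by
      have h4 : (C ((n : ℝ) + 2) : ℝ[X]) ≠ 0 := by
        rw [Ne, C_eq_zero]
        positivity
      exact sub_eq_zero.1 ((mul_eq_zero.1 h2).resolve_left h4)
    have e5 : (((n + 1 : ℕ) : ℝ) + 1) = (n : ℝ) + 2 := by
      push_cast
      ring
    rw [e5]
    refine ⟨h3, ?_⟩
    have hR := P_rec n
    have e1 : (C (2 * (n : ℝ) + 3) : ℝ[X]) = 2 * C (n : ℝ) + 3 := by rw [C_add, C_mul, map_ofNat, map_ofNat]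
    have e2 : (C ((n : ℝ) + 1) : ℝ[X]) = C (n : ℝ) + 1 := by simp
    have e3 : (C ((n : ℝ) + 2) : ℝ[X]) = C (n : ℝ) + 2 := by rw [C_add, map_ofNat]
    rw [e2] at hA hB
    rw [e3] at h3
    rw [e1, e2, e3] at hR
    rw [e3]
    linear_combination X * h3 + X * hB - hA - hR

theorem der_A (n : ℕ) : derivative (P (n + 1)) = X * derivative (P n) + C ((n : ℝ) + 1) * P n := (der_AB n).1

theorem der_B (n : ℕ) : X * derivative (P (n + 1)) = derivative (P n) + C ((n : ℝ) + 1) * P (n + 1) := (der_AB n).2

/-- `(1 - x ^ 2) P' (n + 1) = (n + 1) (P n - x P (n + 1))` -/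
theorem der_C (n : ℕ) : (1 - X ^ 2) * derivative (P (n + 1)) = C ((n : ℝ) + 1) * (P n - X * P (n + 1)) := by
  have hA := der_A n
  have hB := der_B n
  linear_combination hA - X * hB

/-- the differential equation -/
theorem ode (n : ℕ) : derivative ((1 - X ^ 2) * derivative (P n)) = - (C ((n : ℝ) * ((n : ℝ) + 1)) * P n) := by
  cases n with
  | zero =>
    rw [P_zero]
    simp
  | succ n =>
    rw [der_C]
    have hB := der_B n
    simp only [derivative_mul, derivative_sub, derivative_C, derivative_X, zero_mul, zero_add, one_mul]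
    have e1 : (((n + 1 : ℕ) : ℝ) * (((n + 1 : ℕ) : ℝ) + 1)) = ((n : ℝ) + 1) * ((n : ℝ) + 2) := by
      push_cast
      ring
    rw [e1]
    have e2 : (C ((n : ℝ) + 1) : ℝ[X]) = C (n : ℝ) + 1 := by simp
    have e3 : (C (((n : ℝ) + 1) * ((n : ℝ) + 2)) : ℝ[X]) = (C (n : ℝ) + 1) * (C (n : ℝ) + 2) := by
      rw [C_mul, C_add, C_add, C_1, map_ofNat]
    rw [e2] at hB
    rw [e2, e3]
    linear_combination (-(C (n : ℝ) + 1)) * hB

/-- the differential equation, written out for the values -/
theorem ode_eval (n : ℕ) (x : ℝ) :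
    (1 - x ^ 2) * (derivative (derivative (P n))).eval x - 2 * x * (derivative (P n)).eval x +
      (n : ℝ) * ((n : ℝ) + 1) * (P n).eval x = 0 := by
  have h := congrArg (eval x) (ode n)
  simp only [derivative_mul, derivative_sub, derivative_one, derivative_X_pow, eval_mul, eval_sub, eval_add, eval_neg,
    eval_one, eval_X, eval_pow, eval_C, eval_zero] at h
  norm_num at h
  linarith

theorem eval_one' (n : ℕ) : (P n).eval 1 = 1 := by
  induction n using Nat.strong_induction_on with
  | _ n ih =>
    match n, ih with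
    | 0, _ => rw [P_zero]; simp
    | 1, _ => rw [P_one]; simp
    | n + 2, ih =>
      have h := rec_eval n 1
      rw [ih (n + 1) (by omega), ih n (by omega)] at h
      have h2 : ((n : ℝ) + 2) * ((P (n + 2)).eval 1 - 1) = 0 := by linarith
      have h3 : ((n : ℝ) + 2) ≠ 0 := by positivity
      linarith [(mul_eq_zero.1 h2).resolve_left h3]

theorem eval_neg' (n : ℕ) (x : ℝ) : (P n).eval (-x) = (-1) ^ n * (P n).eval x := by
  induction n using Nat.strong_induction_on with
  | _ n ih =>
    match n, ih with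
    | 0, _ => rw [P_zero]; simp
    | 1, _ => rw [P_one]; simp
    | n + 2, ih =>
      have h1 := rec_eval n (-x)
      have h2 := rec_eval n x
      rw [ih (n + 1) (by omega), ih n (by omega)] at h1
      have h3 : ((n : ℝ) + 2) ≠ 0 := by positivity
      refine mul_left_cancel₀ h3 ?_
      rw [h1]
      linear_combination (-(-1 : ℝ) ^ n) * h2

/-- the value of the derivative at `1` -/
theorem der_one (n : ℕ) : (derivative (P n)).eval 1 = (n : ℝ) * ((n : ℝ) + 1) / 2 := by
  have h := ode_eval n 1
  rw [eval_one'] at h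
  linarith

theorem natDegree_le (n : ℕ) : (P n).natDegree ≤ n := by
  induction n using Nat.strong_induction_on with
  | _ n ih =>
    match n, ih with
    | 0, _ => rw [P_zero]; simp
    | 1, _ => rw [P_one]; simp
    | n + 2, ih =>
      rw [P]
      refine (natDegree_C_mul_le _ _).trans ((natDegree_sub_le _ _).trans (max_le ?_ ?_))
      · rw [mul_assoc]
        refine (natDegree_C_mul_le _ _).trans (natDegree_mul_le.trans ?_)
        have h1 := ih (n + 1) (by omega)
        have h2 := natDegree_X_le (R := ℝ)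
        omega
      · refine (natDegree_C_mul_le _ _).trans ?_
        have h1 := ih n (by omega)
        omega

/-- `X P n` in terms of the neighbours -/
theorem X_mul (n : ℕ) : C (2 * (n : ℝ) + 1) * (X * P n) = C ((n : ℝ) + 1) * P (n + 1) + C (n : ℝ) * P (n - 1) := by
  cases n with
  | zero =>
    rw [P_zero, zero_add, P_one]
    simp
  | succ n =>
    have h := P_rec n
    have e1 : (2 * ((n + 1 : ℕ) : ℝ) + 1) = 2 * (n : ℝ) + 3 := by
      push_cast
      ring
    have e2 : (((n + 1 : ℕ) : ℝ) + 1) = (n : ℝ) + 2 := by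
      push_cast
      ring
    have e3 : ((n + 1 : ℕ) : ℝ) = (n : ℝ) + 1 := by
      push_cast
      ring
    rw [e1, e2, e3, Nat.add_sub_cancel]
    linear_combination -h

end Pool.Agent.H27.Leg
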