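import Pool.Agent.H27.Leg.Alg

/-!
# The ring structure

For a submultiplicative weight `w` the space `W A w` is a commutative Banach algebra. The even series form a closed subspace which is
closed under products.
-/

namespace Pool.Agent.H27.Leg

/-- the scaled coefficients of the operation with coefficients `k` -/
noncomputable def scl (k : ℕ → ℕ → ℕ → ℝ) (w₁ w₂ w₃ : ℕ → ℝ) (a b L : ℕ) : ℝ := k a b L * w₃ L / (w₁ a * w₂ b)

/-- a submultiplicative weight -/
structure Wt (w : ℕ → ℝ) : Prop where
  pos : ∀ n, 0 < w n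
  zero : w 0 = 1
  mul : ∀ a b L, L ≤ a + b → w L ≤ w a * w b

theorem wt_pow {R : ℝ} (h : 1 ≤ R) : Wt fun n => R ^ n where
  pos n := by positivity
  zero := pow_zero R
  mul a b L hL := by
    rw [← pow_add]
    exact pow_le_pow_right₀ h hL

instance {R : ℝ} [h : Fact (1 ≤ R)] : Fact (Wt fun n => R ^ n) := ⟨wt_pow h.out⟩

/-- the weight of two factors bounds the weight of the product -/
theorem kb_scl {k : ℕ → ℕ → ℕ → ℝ} {B : ℝ} (hk : KB k B) {w₁ w₂ w₃ : ℕ → ℝ} (h₁ : ∀ n, 0 < w₁ n) (h₂ : ∀ n, 0 < w₂ n)
    (h₃ : ∀ n, 0 < w₃ n) (h : ∀ a b L, L ≤ a + b → w₃ L ≤ w₁ a * w₂ b) : KB (scl k w₁ w₂ w₃) B := by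
  intro a b
  refine (Finset.sum_le_sum fun L hL => ?_).trans (hk a b)
  rw [Finset.mem_range] at hL
  have h4 := h₁ a
  have h5 := h₂ b
  have h6 := h₃ L
  unfold scl
  rw [mul_div_assoc, abs_mul]
  refine mul_le_of_le_one_right (abs_nonneg _) ?_
  rw [abs_of_nonneg (by positivity), div_le_one (by positivity)]
  exact h a b L (by omega)

/-- the coefficients of the product have sum `1` -/
theorem kb_c : KB c 1 := by
  intro a b
  rw [Finset.sum_congr rfl fun L _ => abs_of_nonneg (c_nonneg a b L), c_sum a b (a + b + 1) le_rfl]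

/-- the scaled coefficients of the product -/
noncomputable def cw (w : ℕ → ℝ) : ℕ → ℕ → ℕ → ℝ := scl c w w w

theorem kb_cw {w : ℕ → ℝ} (hw : Wt w) : KB (cw w) 1 := kb_scl kb_c hw.pos hw.pos hw.pos hw.mul

theorem cw_symm (w : ℕ → ℝ) (a b L : ℕ) : cw w a b L = cw w b a L := by
  unfold cw scl
  rw [c_symm, mul_comm (w a)]

theorem cw_zero {w : ℕ → ℝ} (hw : Wt w) (b L : ℕ) : cw w 0 b L = if L = b then 1 else 0 := by
  unfold cw scl
  rw [c_left_zero, hw.zero]
  have := (hw.pos b).ne'
  by_cases h : L = b
  · subst h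
    rw [if_pos rfl]
    field_simp
  · rw [if_neg h]
    simp

theorem cw_range {w : ℕ → ℝ} {a b L : ℕ} (h : a + b < L) : cw w a b L = 0 := by
  unfold cw scl
  rw [c_range h]
  simp

theorem cw_assoc {w : ℕ → ℝ} (hw : Wt w) (a b d K N : ℕ) (h : a + b + d + 1 ≤ N) :
    ∑ L ∈ Finset.range N, cw w a b L * cw w L d K = ∑ L ∈ Finset.range N, cw w b d L * cw w a L K := by
  have h1 : ∀ L, cw w a b L * cw w L d K = (c a b L * c L d K) * (w K / (w a * w b * w d)) := by
    intro L
    have := (hw.pos L).ne'
    have := (hw.pos a).ne'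
    have := (hw.pos b).ne'
    have := (hw.pos d).ne'
    unfold cw scl
    field_simp
  have h2 : ∀ L, cw w b d L * cw w a L K = (c b d L * c a L K) * (w K / (w a * w b * w d)) := by
    intro L
    have := (hw.pos L).ne'
    have := (hw.pos a).ne'
    have := (hw.pos b).ne'
    have := (hw.pos d).ne'
    unfold cw scl
    field_simp
  rw [Finset.sum_congr rfl fun L _ => h1 L, Finset.sum_congr rfl fun L _ => h2 L, ← Finset.sum_mul, ← Finset.sum_mul,
    c_assoc a b d K N h]

variable {A : Type} [NormedCommRing A] [NormedAlgebra ℝ A] {w w₁ w₂ w₃ : ℕ → ℝ}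

/-- longer sums in the product of two monomials -/
theorem Mk_range {κ : ℕ → ℕ → ℕ → ℝ} {a b N : ℕ} (hN : a + b + 1 ≤ N) (h : ∀ L, a + b < L → κ a b L = 0) (y : A) :
    (Mk κ a b y : W A w) = ∑ L ∈ Finset.range N, mono L (κ a b L • y) := by
  unfold Mk
  refine Finset.sum_subset (Finset.range_mono hN) fun L _ hL => ?_
  rw [Finset.mem_range, not_lt] at hL
  rw [h L (by omega), zero_smul, mono_zero]

section

variable [CompleteSpace A] [hw : Fact (Wt w)]

/-- the product -/
noncomputable def mulW (w : ℕ → ℝ) [hw : Fact (Wt w)] : W A w →L[ℝ] W A w →L[ℝ] W A w := op w w w (kb_cw hw.out)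

theorem mulW_mono (a b : ℕ) (y z : A) : mulW w (mono a y) (mono b z) = Mk (cw w) a b (y * z) := op_mono _ a b y z

theorem norm_mulW_le (f g : W A w) : ‖mulW w f g‖ ≤ ‖f‖ * ‖g‖ := by
  have h := norm_op_le (w₃ := w) (kb_cw hw.out) f g
  rwa [one_mul] at h

theorem mulW_comm (f g : W A w) : mulW w f g = mulW w g f := by
  have h : (mulW w : W A w →L[ℝ] W A w →L[ℝ] W A w) = (mulW w).flip := by
    refine bil_ext fun a y b z => ?_
    rw [ContinuousLinearMap.flip_apply, mulW_mono, mulW_mono, mul_comm z y]
    unfold Mk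
    rw [add_comm b a]
    refine Finset.sum_congr rfl fun L _ => ?_
    rw [cw_symm]
  calc mulW w f g = (mulW w).flip f g := by rw [← h]
    _ = mulW w g f := ContinuousLinearMap.flip_apply _ _ _

theorem one_mulW (f : W A w) : mulW w (mono 0 1) f = f := by
  have h : mulW w (mono 0 (1 : A)) = ContinuousLinearMap.id ℝ (W A w) := by
    refine clm_ext fun n y => ?_
    rw [mulW_mono, ContinuousLinearMap.id_apply, one_mul]
    unfold Mk
    rw [Finset.sum_eq_single n]
    · rw [cw_zero hw.out, if_pos rfl, one_smul]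
    · intro L _ hL
      rw [cw_zero hw.out, if_neg hL, zero_smul, mono_zero]
    · intro hn
      exact absurd (Finset.mem_range.2 (by omega)) hn
  rw [h, ContinuousLinearMap.id_apply]

private theorem assoc_mono (a b d : ℕ) (x y z : A) :
    mulW w (mulW w (mono a x) (mono b y)) (mono d z) = mulW w (mono a x) (mulW w (mono b y) (mono d z)) := by
  set N := a + b + d + 1 with hN
  have e1 : mulW w (mulW w (mono a x) (mono b y)) (mono d z) =
      ∑ K ∈ Finset.range N, mono K ((∑ L ∈ Finset.range N, cw w a b L * cw w L d K) • (x * y * z)) := by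
    rw [mulW_mono, Mk_range (show a + b + 1 ≤ N by omega) (fun L hL => cw_range hL), map_sum]
    have h1 : ∀ L ∈ Finset.range N, mulW w (mono L (cw w a b L • (x * y))) (mono d z) =
        ∑ K ∈ Finset.range N, mono K ((cw w a b L * cw w L d K) • (x * y * z)) := by
      intro L hL
      by_cases h : a + b < L
      · rw [cw_range h, zero_smul, mono_zero, map_zero, zero_apply]
        refine (Finset.sum_eq_zero fun K _ => ?_).symm
        rw [zero_mul, zero_smul, mono_zero]
      · rw [mulW_mono, Mk_range (show L + d + 1 ≤ N by omega) (fun L hL => cw_range hL)]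
        refine Finset.sum_congr rfl fun K _ => ?_
        rw [smul_mul_assoc, smul_smul, mul_comm (cw w L d K)]
    rw [sum_apply, Finset.sum_congr rfl h1, Finset.sum_comm]
    refine Finset.sum_congr rfl fun K _ => ?_
    rw [← mono_sum, ← Finset.sum_smul]
  have e2 : mulW w (mono a x) (mulW w (mono b y) (mono d z)) =
      ∑ K ∈ Finset.range N, mono K ((∑ L ∈ Finset.range N, cw w b d L * cw w a L K) • (x * y * z)) := by
    rw [mulW_mono, Mk_range (show b + d + 1 ≤ N by omega) (fun L hL => cw_range hL), map_sum]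
    have h1 : ∀ L ∈ Finset.range N, mulW w (mono a x) (mono L (cw w b d L • (y * z))) =
        ∑ K ∈ Finset.range N, mono K ((cw w b d L * cw w a L K) • (x * y * z)) := by
      intro L hL
      by_cases h : b + d < L
      · rw [cw_range h, zero_smul, mono_zero, map_zero]
        refine (Finset.sum_eq_zero fun K _ => ?_).symm
        rw [zero_mul, zero_smul, mono_zero]
      · rw [mulW_mono, Mk_range (show a + L + 1 ≤ N by omega) (fun L hL => cw_range hL)]
        refine Finset.sum_congr rfl fun K _ => ?_
        rw [mul_smul_comm, smul_smul, mul_comm (cw w a L K), mul_assoc x y z]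
    rw [Finset.sum_congr rfl h1, Finset.sum_comm]
    refine Finset.sum_congr rfl fun K _ => ?_
    rw [← mono_sum, ← Finset.sum_smul]
  rw [e1, e2]
  refine Finset.sum_congr rfl fun K _ => ?_
  rw [cw_assoc hw.out a b d K N (by omega)]

theorem mulW_assoc (f g h : W A w) : mulW w (mulW w f g) h = mulW w f (mulW w g h) := by
  have s1 : ∀ (a b : ℕ) (x y : A) (h : W A w),
      mulW w (mulW w (mono a x) (mono b y)) h = mulW w (mono a x) (mulW w (mono b y) h) := by
    intro a b x y h
    have : mulW w (mulW w (mono a x) (mono b y)) = (mulW w (mono a x)).comp (mulW w (mono b y)) := by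
      refine clm_ext fun d z => ?_
      rw [assoc_mono, ContinuousLinearMap.comp_apply]
    rw [this, ContinuousLinearMap.comp_apply]
  have s2 : ∀ (a : ℕ) (x : A) (g h : W A w),
      mulW w (mulW w (mono a x) g) h = mulW w (mono a x) (mulW w g h) := by
    intro a x g h
    have : ((mulW w).flip h).comp (mulW w (mono a x)) = (mulW w (mono a x)).comp ((mulW w).flip h) := by
      refine clm_ext fun b y => ?_
      simp only [ContinuousLinearMap.comp_apply, ContinuousLinearMap.flip_apply]
      exact s1 a b x y h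
    have h2 := congrArg (fun T : W A w →L[ℝ] W A w => T g) this
    simpa only [ContinuousLinearMap.comp_apply, ContinuousLinearMap.flip_apply] using h2
  have : ((mulW w).flip h).comp ((mulW w).flip g) = (mulW w).flip (mulW w g h) := by
    refine clm_ext fun a x => ?_
    simp only [ContinuousLinearMap.comp_apply, ContinuousLinearMap.flip_apply]
    exact s2 a x g h
  have h2 := congrArg (fun T : W A w →L[ℝ] W A w => T f) this
  simpa only [ContinuousLinearMap.comp_apply, ContinuousLinearMap.flip_apply] using h2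

noncomputable instance : Mul (W A w) := ⟨fun f g => mulW w f g⟩

noncomputable instance : One (W A w) := ⟨mono 0 1⟩

theorem mul_def (f g : W A w) : f * g = mulW w f g := rfl

omit [NormedAlgebra ℝ A] [CompleteSpace A] hw in
theorem one_def : (1 : W A w) = mono 0 1 := rfl

noncomputable instance : NormedCommRing (W A w) :=
  { (inferInstance : NormedAddCommGroup (W A w)) with
    mul := fun f g => mulW w f g
    one := mono 0 1
    mul_assoc := mulW_assoc
    mul_comm := mulW_comm
    one_mul := one_mulW
    mul_one := fun f => (mulW_comm f _).trans (one_mulW f)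
    left_distrib := fun f g h => map_add (mulW w f) g h
    right_distrib := fun f g h => by
      change mulW w (f + g) h = mulW w f h + mulW w g h
      rw [map_add, add_apply]
    zero_mul := fun f => by
      change mulW w 0 f = 0
      rw [map_zero, zero_apply]
    mul_zero := fun f => map_zero (mulW w f)
    norm_mul_le := norm_mulW_le }

noncomputable instance : NormedAlgebra ℝ (W A w) :=
  { Algebra.ofModule (fun t f g => by
        change mulW w (t • f) g = t • mulW w f g
        rw [map_smul, smul_apply])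
      (fun t f g => map_smul (mulW w f) t g) with
    norm_smul_le := fun t f => norm_smul_le t f }

instance [NormOneClass A] : NormOneClass (W A w) := ⟨by rw [one_def, norm_mono, norm_one]⟩

theorem mono_mul_mono (a b : ℕ) (y z : A) : (mono a y : W A w) * mono b z = Mk (cw w) a b (y * z) := mulW_mono a b y z

end

/-! ### even series -/

/-- the subspace of the even series -/
def evn (A : Type) [NormedCommRing A] [NormedAlgebra ℝ A] (w : ℕ → ℝ) : Submodule ℝ (W A w) where
  carrier := {f | ∀ n, n % 2 = 1 → sc f n = 0}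
  add_mem' := fun {f g} hf hg n hn => by rw [sc_add, hf n hn, hg n hn, add_zero]
  zero_mem' := fun n _ => sc_zero n
  smul_mem' := fun t f hf n hn => by rw [sc_smul, hf n hn, smul_zero]

theorem mem_evn {f : W A w} : f ∈ evn A w ↔ ∀ n, n % 2 = 1 → sc f n = 0 := Iff.rfl

theorem isClosed_evn : IsClosed (evn A w : Set (W A w)) := by
  have : (evn A w : Set (W A w)) = ⋂ n : ℕ, {f : W A w | n % 2 = 1 → scL w n f = 0} := by
    ext f
    rw [Set.mem_iInter]
    exact Iff.rfl
  rw [this]
  refine isClosed_iInter fun n => ?_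
  by_cases hn : n % 2 = 1
  · have : {f : W A w | n % 2 = 1 → scL w n f = 0} = (fun f => scL w n f) ⁻¹' {0} := by
      ext f
      simp [hn]
    rw [this]
    exact isClosed_singleton.preimage (scL (A := A) w n).continuous
  · have : {f : W A w | n % 2 = 1 → scL w n f = 0} = Set.univ := by
      ext f
      simp [hn]
    rw [this]
    exact isClosed_univ

theorem mono_mem_evn {n : ℕ} (hn : n % 2 = 0) (y : A) : (mono n y : W A w) ∈ evn A w := by
  intro m hm
  rw [sc_mono, if_neg (by omega)]

section

variable [CompleteSpace A]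

/-- an operation whose coefficients vanish for `a`, `b` even and `L` odd maps even series to even series -/
theorem op_mem_evn {κ : ℕ → ℕ → ℕ → ℝ} {B : ℝ} (hk : KB κ B)
    (h : ∀ a b L, a % 2 = 0 → b % 2 = 0 → L % 2 = 1 → κ a b L = 0) {f : W A w₁} {g : W A w₂}
    (hf : f ∈ evn A w₁) (hg : g ∈ evn A w₂) : op w₁ w₂ w₃ hk f g ∈ evn A w₃ := by
  intro L hL
  rw [sc_op]
  have : ∀ p : ℕ × ℕ, (if L ≤ p.1 + p.2 then κ p.1 p.2 L • (sc f p.1 * sc g p.2) else 0) = 0 := by
    intro p
    split_ifs with h1
    · rcases Nat.mod_two_eq_zero_or_one p.1 with h2 | h2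
      · rcases Nat.mod_two_eq_zero_or_one p.2 with h3 | h3
        · rw [h _ _ _ h2 h3 hL, zero_smul]
        · rw [hg _ h3, mul_zero, smul_zero]
      · rw [hf _ h2, zero_mul, smul_zero]
    · rfl
  rw [tsum_congr this, tsum_zero]

omit [NormedAlgebra ℝ A] [CompleteSpace A] in
theorem c_even {a b L : ℕ} (ha : a % 2 = 0) (hb : b % 2 = 0) (hL : L % 2 = 1) : c a b L = 0 :=
  c_zero (by unfold Tri; omega)

theorem mul_mem_evn [hw : Fact (Wt w)] {f g : W A w} (hf : f ∈ evn A w) (hg : g ∈ evn A w) : f * g ∈ evn A w := by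
  rw [mul_def]
  refine op_mem_evn _ (fun a b L ha hb hL => ?_) hf hg
  unfold cw scl
  rw [c_even ha hb hL]
  simp

/-- the subalgebra of the even series -/
noncomputable def evnAlg (A : Type) [NormedCommRing A] [NormedAlgebra ℝ A] [CompleteSpace A] (w : ℕ → ℝ) [Fact (Wt w)] :
    Subalgebra ℝ (W A w) where
  toSubsemiring :=
    { carrier := {f | ∀ n, n % 2 = 1 → sc f n = 0}
      add_mem' := fun hf hg => (evn A w).add_mem hf hg
      zero_mem' := (evn A w).zero_mem
      mul_mem' := fun hf hg => mul_mem_evn hf hg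
      one_mem' := mono_mem_evn rfl 1 }
  algebraMap_mem' := fun t => by
    rw [Algebra.algebraMap_eq_smul_one]
    exact (evn A w).smul_mem t (mono_mem_evn rfl 1)

theorem mem_evnAlg [Fact (Wt w)] {f : W A w} : f ∈ evnAlg A w ↔ ∀ n, n % 2 = 1 → sc f n = 0 := Iff.rfl

theorem isClosed_evnAlg [Fact (Wt w)] : IsClosed (evnAlg A w : Set (W A w)) := isClosed_evn

instance [Fact (Wt w)] : CompleteSpace (evnAlg A w) := isClosed_evnAlg.completeSpace_coe

end

end Pool.Agent.H27.Leg
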